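import Pool.Agent.H20.TS.Pol

/-!
# [H20 TS Co] the coefficients of a polynomial function of degree 3 on two elements (row 4; Mathlib only)

`P (x ^ i y ^ j)` is a polynomial of degree `3` in `(i, j) ∈ ℤ²`.

Proof.  `PolF 3` for `p (i, j) = P (x ^ i y ^ j)` (`PolF.comp` with `Multiplicative ℤ × Multiplicative ℤ`, or directly).
Show by induction on `d` that `PolF d P` gives `P (x ^ i y ^ j) = ∑_{a + b ≤ d} C (i, a) C (j, b) e (a, b)` for integers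
`e (a, b)` (binomials `Ring.choose`), or do it by hand for `d = 0, 1, 2, 3`: `P (x z) - P z` has degree `d - 1`; sum it
over `i` (and then over `j` at `i = 0`); sums of `i ^ a` over an interval are polynomials, for negative `i` as well.
A convenient way: for `h : ℤ → ℝ` with `h (i + 1) - h i = a i ^ 2 + b i + c` for all `i`, `h i = h 0 + a (i - 1) i (2 i - 1)
/ 6 + b i (i - 1) / 2 + c i` (`Int.induction_on`).
-/

set_option autoImplicit false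

namespace Pool.Agent.H20.TS

variable {G : Type} [CommGroup G]

private theorem eqInt (h g : ℤ → ℝ) (h0 : h 0 = g 0)
    (hd : ∀ i : ℤ, h (i + 1) - h i = g (i + 1) - g i) (i : ℤ) : h i = g i := by
  induction i using Int.induction_on with
  | zero => exact h0
  | succ k ih =>
    have := hd k
    linarith
  | pred k ih =>
    have h1 := hd (-(k : ℤ) - 1)
    have e : -(k : ℤ) - 1 + 1 = -(k : ℤ) := by ring
    rw [e] at h1
    linarith

/-- the difference -/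
private def D1 (x : G) (f : G → ℤ) : G → ℤ := fun z => f (z * x) - f z

private theorem stp (f : G → ℤ) (z x : G) (i : ℤ) :
    (f (z * x ^ (i + 1)) : ℝ) - f (z * x ^ i) = (D1 x f (z * x ^ i) : ℝ) := by
  have e : z * x ^ (i + 1) = z * x ^ i * x := by rw [zpow_add_one, mul_assoc]
  unfold D1
  rw [e]
  push_cast
  ring

private theorem n1 {f : G → ℤ} (hf : PolF 1 f) (z x : G) (i : ℤ) :
    (f (z * x ^ i) : ℝ) = f z + i * (D1 x f z : ℝ) := by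
  refine eqInt (fun i => (f (z * x ^ i) : ℝ)) (fun i => f z + i * (D1 x f z : ℝ))
    (by simp) (fun i => ?_) i
  have h1 : D1 x f (z * x ^ i) = D1 x f z := hf x (z * x ^ i) z
  show (f (z * x ^ (i + 1)) : ℝ) - f (z * x ^ i) = _
  rw [stp, h1]
  push_cast
  ring

private theorem n2 {f : G → ℤ} (hf : PolF 2 f) (z x : G) (i : ℤ) :
    (f (z * x ^ i) : ℝ) = f z + i * (D1 x f z : ℝ) + i * (i - 1) / 2 * (D1 x (D1 x f) z : ℝ) := by
  refine eqInt (fun i => (f (z * x ^ i) : ℝ)) (fun i => f z + i * (D1 x f z : ℝ) +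
    i * (i - 1) / 2 * (D1 x (D1 x f) z : ℝ)) (by simp) (fun i => ?_) i
  have h1 := n1 (f := D1 x f) (hf x) z x i
  show (f (z * x ^ (i + 1)) : ℝ) - f (z * x ^ i) = _
  rw [stp, h1]
  push_cast
  ring

private theorem n3 {f : G → ℤ} (hf : PolF 3 f) (z x : G) (i : ℤ) :
    (f (z * x ^ i) : ℝ) = f z + i * (D1 x f z : ℝ) + i * (i - 1) / 2 * (D1 x (D1 x f) z : ℝ) +
      i * (i - 1) * (i - 2) / 6 * (D1 x (D1 x (D1 x f)) z : ℝ) := by
  refine eqInt (fun i => (f (z * x ^ i) : ℝ)) (fun i => f z + i * (D1 x f z : ℝ) +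
    i * (i - 1) / 2 * (D1 x (D1 x f) z : ℝ) +
      i * (i - 1) * (i - 2) / 6 * (D1 x (D1 x (D1 x f)) z : ℝ)) (by simp) (fun i => ?_) i
  have h1 := n2 (f := D1 x f) (hf x) z x i
  show (f (z * x ^ (i + 1)) : ℝ) - f (z * x ^ i) = _
  rw [stp, h1]
  push_cast
  ring

theorem co_two {P : G → ℤ} (hP : PolF 3 P) (x y : G) :
    ∃ (q : Fin 4 → ℝ) (r : Fin 3 → ℝ) (s : Fin 2 → ℝ) (c : ℝ), ∀ i j : ℤ, (P (x ^ i * y ^ j) : ℝ) =
      q 0 * i ^ 3 + q 1 * i ^ 2 * j + q 2 * i * j ^ 2 + q 3 * j ^ 3 + r 0 * i ^ 2 + r 1 * i * j + r 2 * j ^ 2 +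
        s 0 * i + s 1 * j + c := by
  have hA : PolF 2 (D1 x P) := hP x
  have hB : PolF 1 (D1 x (D1 x P)) := hA x
  have hC : PolF 0 (D1 x (D1 x (D1 x P))) := hB x
  have hx := n3 hP
  obtain ⟨p0, p1, p2, p3, hp⟩ : ∃ p0 p1 p2 p3 : ℝ, ∀ j : ℤ, (P (y ^ j) : ℝ) =
      p0 + j * p1 + j * (j - 1) / 2 * p2 + j * (j - 1) * (j - 2) / 6 * p3 := by
    refine ⟨(P 1 : ℝ), (D1 y P 1 : ℝ), (D1 y (D1 y P) 1 : ℝ), (D1 y (D1 y (D1 y P)) 1 : ℝ), fun j => ?_⟩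
    have := n3 hP 1 y j
    rwa [one_mul] at this
  obtain ⟨a0, a1, a2, ha⟩ : ∃ a0 a1 a2 : ℝ, ∀ j : ℤ, (D1 x P (y ^ j) : ℝ) =
      a0 + j * a1 + j * (j - 1) / 2 * a2 := by
    refine ⟨(D1 x P 1 : ℝ), (D1 y (D1 x P) 1 : ℝ), (D1 y (D1 y (D1 x P)) 1 : ℝ), fun j => ?_⟩
    have := n2 hA 1 y j
    rwa [one_mul] at this
  obtain ⟨b0, b1, hb⟩ : ∃ b0 b1 : ℝ, ∀ j : ℤ, (D1 x (D1 x P) (y ^ j) : ℝ) = b0 + j * b1 := by
    refine ⟨(D1 x (D1 x P) 1 : ℝ), (D1 y (D1 x (D1 x P)) 1 : ℝ), fun j => ?_⟩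
    have := n1 hB 1 y j
    rwa [one_mul] at this
  obtain ⟨c0, hc⟩ : ∃ c0 : ℝ, ∀ j : ℤ, (D1 x (D1 x (D1 x P)) (y ^ j) : ℝ) = c0 :=
    ⟨(D1 x (D1 x (D1 x P)) 1 : ℝ), fun j => congrArg _ (hC (y ^ j) 1)⟩
  refine ⟨![c0 / 6, b1 / 2, a2 / 2, p3 / 6], ![b0 / 2 - c0 / 2, a1 - a2 / 2 - b1 / 2, p2 / 2 - p3 / 2],
    ![a0 - b0 / 2 + c0 / 3, p1 - p2 / 2 + p3 / 3], p0, fun i j => ?_⟩
  rw [mul_comm (x ^ i), hx, hp, ha, hb, hc]
  simp only [Matrix.cons_val_zero, Matrix.cons_val_one, Matrix.cons_val]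
  ring

/-- a real polynomial of degree `3` which vanishes for all large natural numbers is `0` -/
theorem co_zero {a b c e : ℝ} {n₀ : ℕ} (h : ∀ n : ℕ, n₀ ≤ n → a * (n : ℝ) ^ 3 + b * (n : ℝ) ^ 2 + c * n + e = 0) :
    a = 0 ∧ b = 0 ∧ c = 0 ∧ e = 0 := by
  have e0 := h n₀ le_rfl
  have e1 := h (n₀ + 1) (by omega)
  have e2 := h (n₀ + 2) (by omega)
  have e3 := h (n₀ + 3) (by omega)
  push_cast at e1 e2 e3
  have ha : a = 0 := by linear_combination (e3 - 3 * e2 + 3 * e1 - e0) / 6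
  subst ha
  have hb : b = 0 := by linear_combination (e2 - 2 * e1 + e0) / 2
  subst hb
  have hc : c = 0 := by linear_combination e1 - e0
  subst hc
  refine ⟨rfl, rfl, rfl, ?_⟩
  linear_combination e0

end Pool.Agent.H20.TS
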