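import Pool.Agent.H20.TS.Thr
import Pool.Agent.H20.TS.Co
import Pool.Agent.H20.TK.Chi
import Pool.Agent.H24.TK.Frm

/-!
# [H20 TS CyH] (CY) from the Hilbert polynomials of the ample divisors (row 9)

If for every ample divisor `A` the function `h0 (n A)` is `a n³ + b n + c` with `b > 0` for large `n`, then (CY) holds.

Proof.  Let `P` be the function of `thr`.
(1) `P (B ^ n) = a n ^ 3 + b n + c` for large `n`, with `b > 0`, for every ample `B` (`h0 B n = h0 (B ^ n) 1`).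
(2) `P (D N) = P D` for `N` numerically trivial (`NumZ N`) and all `D`.  `P (D N) - P D = φ D + e` with a homomorphism `φ`
(`PolF.exists_hom`; `A N ^ n` is ample for all `n : ℤ`, `A` ample: `numz_step` in `H41/TK/DG`).  Let `A` be ample.
`P (A ^ i N ^ j) = u (i, j)` is a polynomial of degree `3` in `i, j ∈ ℤ` (`co_two`), and `u (i, j + 1) - u (i, j) = i φ A +
j φ N + e`; so `u` has no terms `i² j, i j², j³` and the terms `φ A i j`, `φ N j (j - 1) / 2 + e j`.  For `i ≥ 1` and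
all `j` `B = A ^ i N ^ j` is ample; by (1) and `co_zero` for `n ↦ u (i n, j n)` the quadratic part of `u` vanishes at
`(i, j)` and the linear part is positive.  So the quadratic part is `0`: `φ A = 0`, `φ N = 0`; the linear part is
`s i + e j > 0` for all `i ≥ 1`, `j ∈ ℤ`: `e = 0`.  `φ A = 0` for all ample `A`, and they generate `Cart X` (`W A ^ n` is
ample for large `n`), so `φ = 0`.
(3) `b : Fin 2 → Cart X` with `cv ν (b i) = Pi.single i 1` (`Pool.Agent.H36.TU.exists_bas hν`).  `D = bas b (cz ν D) N`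
with `NumZ N` (`hν.ker`), so `P D = P (bas b (cz ν D)) = P (b 0 ^ x b 1 ^ y)`, a polynomial with the coefficients
`q, r, s, c` of `co_two`, `(x, y) = cz ν D`.
(4) `r = 0`: for `A` ample with the class `u` the quadratic part vanishes at `u` ((1), `co_zero`); `AmpV ν` is open
(`Pool.Agent.H36.TU.ampV_open`), so it contains the integral points `u` of a cone with interior, and the quadratic form
vanishes on three of them which are pairwise independent (for `A` ample with the class `u`: `n u + (1, 0)`, `n u + (0, 1)`,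
`n u + (1, 1)`, `n u` are classes of ample divisors for large `n`; so the form vanishes at these for all large `n`).
(5) `l v = s 0 v 0 + s 1 v 1`; `l (cv ν A) = b > 0` for ample `A`.
(6) `CY.ev`: `chi q l c (cv ν D) = P D` by (3), (4) and `tau_cub`.
-/

set_option autoImplicit false

namespace Pool.Agent.H20.TS

open Pool.Agent.H57.KM Pool.Agent.H54.RV Pool.Agent.H83.TU Pool.Agent.H20.TK

variable {k K : Type} [Field k] [Field K] [Algebra k K] {X : Mod k K}

/-- the quadratic and the linear part at an ample divisor -/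
private theorem cy_amp {P : Cart X → ℤ}
    (h1 : ∀ B : Cart X, Ample B → ∃ a b c : ℝ, 0 < b ∧ ∃ n₀ : ℕ, ∀ n : ℕ, n₀ ≤ n →
      (P (B ^ n) : ℝ) = a * (n : ℝ) ^ 3 + b * n + c)
    {x y : Cart X} {q : Fin 4 → ℝ} {r : Fin 3 → ℝ} {s : Fin 2 → ℝ} {c : ℝ}
    (hu : ∀ i j : ℤ, (P (x ^ i * y ^ j) : ℝ) =
      q 0 * i ^ 3 + q 1 * i ^ 2 * j + q 2 * i * j ^ 2 + q 3 * j ^ 3 + r 0 * i ^ 2 + r 1 * i * j + r 2 * j ^ 2 +
        s 0 * i + s 1 * j + c)
    {i j : ℤ} (hA : Ample (x ^ i * y ^ j)) :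
    r 0 * (i : ℝ) ^ 2 + r 1 * i * j + r 2 * (j : ℝ) ^ 2 = 0 ∧ 0 < s 0 * (i : ℝ) + s 1 * j := by
  obtain ⟨a, b, c', hb, n₀, hn⟩ := h1 _ hA
  have h2 : ∀ n : ℕ, n₀ ≤ n →
      (q 0 * (i : ℝ) ^ 3 + q 1 * i ^ 2 * j + q 2 * i * j ^ 2 + q 3 * j ^ 3 - a) * (n : ℝ) ^ 3 +
        (r 0 * (i : ℝ) ^ 2 + r 1 * i * j + r 2 * (j : ℝ) ^ 2) * (n : ℝ) ^ 2 +
        (s 0 * (i : ℝ) + s 1 * j - b) * n + (c - c') = 0 := by
    intro n hn'
    have h3 := hn n hn'
    have h4 := hu (i * n) (j * n)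
    have h5 : x ^ (i * (n : ℤ)) * y ^ (j * (n : ℤ)) = (x ^ i * y ^ j) ^ n := by
      rw [zpow_mul, zpow_mul, zpow_natCast, zpow_natCast, mul_pow]
    rw [h5, h3] at h4
    push_cast at h4
    linear_combination -h4
  obtain ⟨-, e2, e3, -⟩ := co_zero h2
  refine ⟨e2, ?_⟩
  linarith

private theorem cy_zpow {φ : Cart X → ℤ} (hφ : ∀ x y, φ (x * y) = φ x + φ y) (x : Cart X) (i : ℤ) :
    φ (x ^ i) = i * φ x := by
  let f : Cart X →* Multiplicative ℤ := MonoidHom.mk' (fun x => Multiplicative.ofAdd (φ x)) fun x y => by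
    rw [hφ]
    rfl
  have h1 : f (x ^ i) = f x ^ i := map_zpow f x i
  have h2 : Multiplicative.toAdd (f (x ^ i)) = i * Multiplicative.toAdd (f x) := by
    rw [h1, toAdd_zpow, smul_eq_mul]
  exact h2

private theorem cy_numz {N A : Cart X} (hX : IsVar X) (hN : NumZ N) (hA : Ample A) (i : ℕ) (hi : 1 ≤ i) (j : ℤ) :
    Ample (A ^ (i : ℤ) * N ^ j) := by
  have h1 := ample_pow A i hi hA
  rw [zpow_natCast]
  rcases Int.eq_nat_or_neg j with ⟨n, rfl | rfl⟩
  · rw [zpow_natCast]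
    exact (Pool.Agent.H41.TK.numz_step N hN n _ h1).1
  · rw [zpow_neg, zpow_natCast, ← inv_pow]
    exact (Pool.Agent.H41.TK.numz_step N hN n _ h1).2

/-- numerically trivial divisors do not change `P` -/
private theorem cy_num {P : Cart X → ℤ} (hX : IsVar X) (hP : PolF 3 P) (hamp : ∃ A : Cart X, Ample A)
    (h1 : ∀ B : Cart X, Ample B → ∃ a b c : ℝ, 0 < b ∧ ∃ n₀ : ℕ, ∀ n : ℕ, n₀ ≤ n →
      (P (B ^ n) : ℝ) = a * (n : ℝ) ^ 3 + b * n + c)
    (h2 : ∀ N A : Cart X, Ample A → (∀ n : ℤ, Ample (A * N ^ n)) → PolF 1 (fun D => P (D * N) - P D))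
    {N : Cart X} (hN : NumZ N) (D : Cart X) : P (D * N) = P D := by
  obtain ⟨A₀, hA₀⟩ := hamp
  have hAN : ∀ A : Cart X, Ample A → ∀ n : ℤ, Ample (A * N ^ n) := by
    intro A hA n
    have h3 := cy_numz hX hN hA 1 le_rfl n
    rwa [Nat.cast_one, zpow_one] at h3
  obtain ⟨φ, e, hφ, hφe⟩ := PolF.exists_hom (h2 N A₀ hA₀ (hAN A₀ hA₀))
  have key : ∀ A : Cart X, Ample A → φ A = 0 ∧ e = 0 := by
    intro A hA
    obtain ⟨q, r, s, c, hu⟩ := co_two hP A N
    have hd : ∀ i j : ℤ, q 1 * (i : ℝ) ^ 2 + q 2 * i * (2 * j + 1) + q 3 * (3 * (j : ℝ) ^ 2 + 3 * j + 1) +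
        r 1 * i + r 2 * (2 * j + 1) + s 1 = i * (φ A : ℝ) + j * (φ N : ℝ) + e := by
      intro i j
      have h3 := hφe (A ^ i * N ^ j)
      have h4 : A ^ i * N ^ j * N = A ^ i * N ^ (j + 1) := by
        rw [zpow_add_one, mul_assoc]
      rw [h4, hφ, cy_zpow hφ, cy_zpow hφ] at h3
      have h5 : (P (A ^ i * N ^ (j + 1)) : ℝ) - P (A ^ i * N ^ j) = i * (φ A : ℝ) + j * (φ N : ℝ) + e := by
        exact_mod_cast h3
      rw [hu, hu] at h5
      push_cast at h5
      linear_combination h5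
    have d00 := hd 0 0
    have d10 := hd 1 0
    have dm0 := hd (-1) 0
    have d01 := hd 0 1
    have d0m := hd 0 (-1)
    have d11 := hd 1 1
    push_cast at d00 d10 dm0 d01 d0m d11
    have a10 := cy_amp h1 hu (i := 1) (j := 0) (cy_numz hX hN hA 1 le_rfl 0)
    have a11 := cy_amp h1 hu (i := 1) (j := 1) (cy_numz hX hN hA 1 le_rfl 1)
    have a1m := cy_amp h1 hu (i := 1) (j := -1) (cy_numz hX hN hA 1 le_rfl (-1))
    have e1 := a10.1
    have e2 := a11.1
    have e3 := a1m.1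
    push_cast at e1 e2 e3
    have hφA : (φ A : ℝ) = 0 := by linarith
    have hs1 : s 1 = 0 := by
      by_contra hne
      rcases lt_or_gt_of_ne hne with h5 | h5
      · obtain ⟨n, hn⟩ := exists_nat_gt (s 0 / (- s 1))
        rw [div_lt_iff₀ (by linarith)] at hn
        have h6 := (cy_amp h1 hu (i := 1) (j := n) (cy_numz hX hN hA 1 le_rfl n)).2
        push_cast at h6
        linarith
      · obtain ⟨n, hn⟩ := exists_nat_gt (s 0 / s 1)
        rw [div_lt_iff₀ h5] at hn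
        have h6 := (cy_amp h1 hu (i := 1) (j := -n) (cy_numz hX hN hA 1 le_rfl (-n))).2
        push_cast at h6
        linarith
    have he : (e : ℝ) = 0 := by linarith
    exact ⟨by exact_mod_cast hφA, by exact_mod_cast he⟩
  have he := (key A₀ hA₀).2
  have hφ0 : φ D = 0 := by
    obtain ⟨m, hm, h3⟩ := ample_add hX A₀ D hA₀
    have h4 := (key _ h3).1
    have h5 := (key _ (ample_pow A₀ m hm hA₀)).1
    rw [hφ, h5, zero_add] at h4
    exact h4
  have h3 := hφe D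
  rw [hφ0, he] at h3
  omega

theorem cy_of [CharZero k] [IsAlgClosed k] [T0Space X.P] (h : Hyp X) {ν : Cart X →* Multiplicative (Fin 2 → ℤ)}
    (hν : Num ν) (hH : ∀ A : Cart X, Ample A → ∃ a b c : ℝ, 0 < b ∧
      ∃ n₀ : ℕ, ∀ n : ℕ, n₀ ≤ n → (h0 A n : ℝ) = a * (n : ℝ) ^ 3 + b * n + c) :
    ∃ (q : Fin 4 → ℝ) (l : V 2 →ₗ[ℝ] ℝ) (c : ℝ), CY q l c ν := by
  obtain ⟨P, hP, hev, hnum⟩ := thr h
  have h1 : ∀ B : Cart X, Ample B → ∃ a b c : ℝ, 0 < b ∧ ∃ n₀ : ℕ, ∀ n : ℕ, n₀ ≤ n →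
      (P (B ^ n) : ℝ) = a * (n : ℝ) ^ 3 + b * n + c := by
    intro B hB
    obtain ⟨a, b, c, hb, n₁, hn₁⟩ := hH B hB
    obtain ⟨n₂, hn₂⟩ := hev 1 B hB
    refine ⟨a, b, c, hb, max n₁ n₂, fun n hn => ?_⟩
    have h2 := hn₁ n (le_trans (le_max_left _ _) hn)
    have h3 := hn₂ n (le_trans (le_max_right _ _) hn)
    rw [one_mul] at h3
    have h4 : h0 (B ^ n) 1 = h0 B n := by
      unfold h0
      rw [Pool.Agent.H24.TK.secL_pow]
    rw [h4] at h3
    rw [← h2, ← h3]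
    push_cast
    rfl
  obtain ⟨b, hb⟩ := Pool.Agent.H36.TU.exists_bas hν
  obtain ⟨q, r, s, c, hu⟩ := co_two hP (b 0) (b 1)
  have hcz : ∀ m : Fin 2 → ℤ, cz ν (bas b m) = m := by
    intro m
    have h2 := cv_bas (ν := ν) hb m
    rw [← toR_cz] at h2
    funext i
    have h3 : ((cz ν (bas b m) i : ℤ) : ℝ) = (m i : ℝ) := congrFun h2 i
    exact_mod_cast h3
  have hPD : ∀ D : Cart X, P D = P (bas b (cz ν D)) := by
    intro D
    have hN : NumZ ((bas b (cz ν D))⁻¹ * D) := by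
      rw [← hν.ker, map_mul, map_inv]
      have h2 : ν (bas b (cz ν D)) = ν D := Multiplicative.toAdd.injective (hcz (cz ν D))
      rw [h2, inv_mul_cancel]
    have h2 := cy_num h.var hP h.amp h1 hnum hN (bas b (cz ν D))
    rw [mul_inv_cancel_left] at h2
    exact h2
  have hamp : ∀ m : Fin 2 → ℤ, Ample (bas b m) →
      r 0 * (m 0 : ℝ) ^ 2 + r 1 * m 0 * m 1 + r 2 * (m 1 : ℝ) ^ 2 = 0 ∧ 0 < s 0 * (m 0 : ℝ) + s 1 * m 1 :=
    fun m hm => cy_amp h1 hu hm
  have hpos : ∀ A : Cart X, Ample A → r 0 * (cz ν A 0 : ℝ) ^ 2 + r 1 * cz ν A 0 * cz ν A 1 +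
      r 2 * (cz ν A 1 : ℝ) ^ 2 = 0 ∧ 0 < s 0 * (cz ν A 0 : ℝ) + s 1 * cz ν A 1 := by
    intro A hA
    refine hamp _ ?_
    rw [amp_bas h.var hν hb, toR_cz]
    exact ampV_cv ν A hA
  -- the quadratic part is zero
  have hr : r 0 = 0 ∧ r 1 = 0 ∧ r 2 = 0 := by
    obtain ⟨A, hA⟩ := h.amp
    have hw : ∀ w : Fin 2 → ℤ, r 0 * (w 0 : ℝ) ^ 2 + r 1 * w 0 * w 1 + r 2 * (w 1 : ℝ) ^ 2 = 0 := by
      intro w
      obtain ⟨m, hm, h2⟩ := ample_add h.var A (bas b w) hA
      have h3 : ∀ i : ℕ, r 0 * ((m + i : ℝ) * (cz ν A 0 : ℝ) + w 0) ^ 2 +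
          r 1 * ((m + i : ℝ) * (cz ν A 0 : ℝ) + w 0) * ((m + i : ℝ) * (cz ν A 1 : ℝ) + w 1) +
          r 2 * ((m + i : ℝ) * (cz ν A 1 : ℝ) + w 1) ^ 2 = 0 := by
        intro i
        have h4 : Ample (A ^ (m + i) * bas b w) := by
          rcases Nat.eq_zero_or_pos i with hi | hi
          · rw [hi, add_zero]
            exact h2
          · rw [add_comm, pow_add, mul_assoc]
            exact ample_mul h.var _ _ (ample_pow A i hi hA) h2
        have h5 := (hpos _ h4).1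
        have h6 : ∀ j, (cz ν (A ^ (m + i) * bas b w) j : ℝ) = (m + i : ℝ) * (cz ν A j : ℝ) + w j := by
          intro j
          have h7 : toR (cz ν (A ^ (m + i) * bas b w)) = ((m + i : ℕ) : ℝ) • toR (cz ν A) + toR w := by
            rw [toR_cz, toR_cz, cv_mul, cv_pow, cv_bas hb]
          have h8 := congrFun h7 j
          show toR (cz ν (A ^ (m + i) * bas b w)) j = _
          rw [h8]
          show ((m + i : ℕ) : ℝ) * (cz ν A j : ℝ) + (w j : ℝ) = _
          push_cast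
          ring
        rw [h6, h6] at h5
        exact h5
      have h4 := (hpos A hA).1
      have f0 := h3 0
      have f1 := h3 1
      push_cast at f0 f1
      linear_combination (m + 1 : ℝ) * f0 - (m : ℝ) * f1 + (m * (m + 1) : ℝ) * h4
    have w10 := hw ![1, 0]
    have w01 := hw ![0, 1]
    have w11 := hw ![1, 1]
    simp only [Matrix.cons_val_zero, Matrix.cons_val_one, Int.cast_one, Int.cast_zero] at w10 w01 w11
    refine ⟨by linarith, by linarith, by linarith⟩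
  obtain ⟨r0, r1, r2⟩ := hr
  refine ⟨q, s 0 • LinearMap.proj 0 + s 1 • LinearMap.proj 1, c, ⟨fun D A hA => ?_, fun A hA => ?_⟩⟩
  · obtain ⟨n₀, hn⟩ := hev D A hA
    refine ⟨n₀, fun n hn' => ?_⟩
    have h2 := hn n hn'
    have h3 : (h0 (D * A ^ n) 1 : ℝ) = P (D * A ^ n) := by
      rw [← h2]
      push_cast
      rfl
    have h4 := hu (cz ν (D * A ^ n) 0) (cz ν (D * A ^ n) 1)
    have h5 : P (D * A ^ n) = P (b 0 ^ cz ν (D * A ^ n) 0 * b 1 ^ cz ν (D * A ^ n) 1) := hPD _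
    rw [h3, h5, h4, r0, r1, r2, chi, tau_cub, ← toR_cz]
    simp only [toR, LinearMap.add_apply, LinearMap.smul_apply, LinearMap.proj_apply, smul_eq_mul]
    ring
  · have h2 := (hpos A hA).2
    rw [← toR_cz]
    simp only [toR, LinearMap.add_apply, LinearMap.smul_apply, LinearMap.proj_apply, smul_eq_mul]
    exact h2

end Pool.Agent.H20.TS
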