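import Pool.Agent.H20.TS.Pol

/-!
# [H20 TS Dec] polynomial functions of degree 3: the trilinear, the bilinear and the linear part

`dec2`: a polynomial function `f` of degree `2`: `2 f D = B D D + l D + c` with `B` symmetric, bilinear, `l` additive.
`dec3`: a polynomial function `P` of degree `3`: `T` symmetric, trilinear, `6 P D - T D D D` of degree `2`, and `T U V W`
is the third difference of `P`.
-/

set_option autoImplicit false

namespace Pool.Agent.H20.TS

variable {G : Type} [CommGroup G]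

/-- the difference -/
def Df (g : G) (f : G → ℤ) (x : G) : ℤ := f (x * g) - f x

theorem Df_comm (g h : G) (f : G → ℤ) (x : G) : Df g (Df h f) x = Df h (Df g f) x := by
  unfold Df
  rw [mul_right_comm x h g]
  ring

theorem Df_mul (g h : G) (f : G → ℤ) (x : G) : Df (g * h) f x = Df g f (x * h) + Df h f x := by
  unfold Df
  rw [← mul_assoc, mul_right_comm x g h]
  ring

theorem PolF.df {d : ℕ} {f : G → ℤ} (hf : PolF (d + 1) f) (g : G) : PolF d (Df g f) := hf g

theorem PolF.congr {d : ℕ} {f g : G → ℤ} (hf : PolF d f) (h : ∀ x, g x = f x) : PolF d g := by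
  have : g = f := funext h
  rwa [this]

theorem dec2 {f : G → ℤ} (hf : PolF 2 f) : ∃ (B : G → G → ℤ) (l : G → ℤ) (c : ℤ),
    (∀ U V, B U V = B V U) ∧ (∀ U U' V, B (U * U') V = B U V + B U' V) ∧ (∀ U V, l (U * V) = l U + l V) ∧
      ∀ D, 2 * f D = B D D + l D + c := by
  have hc : ∀ g h x y, Df g (Df h f) x = Df g (Df h f) y := fun g h x y => (hf.df h).df g x y
  have hs : ∀ U V, Df U (Df V f) 1 = Df V (Df U f) 1 := fun U V => Df_comm U V f 1
  have ha : ∀ U U' V, Df (U * U') (Df V f) 1 = Df U (Df V f) 1 + Df U' (Df V f) 1 := fun U U' V => by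
    rw [Df_mul, hc U V (1 * U') 1]
  have hB : PolF 1 (fun D => 2 * f D - Df D (Df D f) 1) := by
    have hb : ∀ U V x, Df V (Df U f) x = Df V (Df U f) 1 := fun U V x => hc _ _ _ _
    intro g h' 
    intro y
    have e : ∀ x, (2 * f (x * g) - Df (x * g) (Df (x * g) f) 1) - (2 * f x - Df x (Df x f) 1) =
        2 * Df g f x - 2 * Df x (Df g f) 1 - Df g (Df g f) 1 := by
      intro x
      have e1 : Df (x * g) (Df (x * g) f) 1 = Df x (Df x f) 1 + 2 * Df x (Df g f) 1 + Df g (Df g f) 1 := by
        rw [ha, hs x (x * g), hs g (x * g), ha, ha, hs g x]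
        ring
      rw [e1]
      unfold Df
      ring
    have e2 : ∀ x, 2 * Df g f x - 2 * Df x (Df g f) 1 - Df g (Df g f) 1 = 2 * Df g f 1 - Df g (Df g f) 1 := by
      intro x
      have : Df g f x = Df x (Df g f) 1 + Df g f 1 := by
        show Df g f x = (Df g f (1 * x) - Df g f 1) + Df g f 1
        rw [one_mul]
        ring
      rw [this]
      ring
    show (2 * f (h' * g) - Df (h' * g) (Df (h' * g) f) 1) - (2 * f h' - Df h' (Df h' f) 1) =
      (2 * f (y * g) - Df (y * g) (Df (y * g) f) 1) - (2 * f y - Df y (Df y f) 1)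
    rw [e, e, e2, e2]
  obtain ⟨φ, c, hφ, hφc⟩ := hB.exists_hom
  refine ⟨fun U V => Df U (Df V f) 1, φ, c, hs, ha, hφ, fun D => ?_⟩
  have h1 := hφc D
  linarith

theorem dec3 {P : G → ℤ} (hP : PolF 3 P) : ∃ T : G → G → G → ℤ,
    (∀ U V W, T U V W = T V U W) ∧ (∀ U V W, T U V W = T U W V) ∧ (∀ U U' V W, T (U * U') V W = T U V W + T U' V W) ∧
      PolF 2 (fun D => 6 * P D - T D D D) ∧ ∀ U V W x, T U V W = Df W (Df V (Df U P)) x := by
  obtain ⟨T, hT⟩ : ∃ T : G → G → G → ℤ, T = fun U V W => Df W (Df V (Df U P)) 1 := ⟨_, rfl⟩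
  have hTe : ∀ U V W x, T U V W = Df W (Df V (Df U P)) x := fun U V W x => by
    rw [hT]
    exact ((hP.df U).df V).df W 1 x
  have h1 : ∀ U V W, T U V W = T V U W := fun U V W => by
    rw [hTe U V W 1, hTe V U W 1]
    have : Df V (Df U P) = Df U (Df V P) := funext fun x => Df_comm V U P x
    rw [this]
  have h2 : ∀ U V W, T U V W = T U W V := fun U V W => by
    rw [hTe U V W 1, hTe U W V 1]
    exact Df_comm W V (Df U P) 1
  have h3' : ∀ U V W W', T U V (W * W') = T U V W + T U V W' := fun U V W W' => by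
    rw [hTe U V (W * W') 1, Df_mul, ← hTe, ← hTe]
  have h3 : ∀ U U' V W, T (U * U') V W = T U V W + T U' V W := fun U U' V W => by
    rw [h1 (U * U'), h2 V (U * U'), h3', h2 V W U, h2 V W U', h1 V U, h1 V U']
  have h4 : ∀ U V V' W, T U (V * V') W = T U V W + T U V' W := fun U V V' W => by
    rw [h2 U (V * V'), h3', h2 U W V, h2 U W V']
  refine ⟨T, h1, h2, h3, ?_, hTe⟩
  -- third differences
  intro U V W y
  have e1 : ∀ x, Df U (fun D => 6 * P D - T D D D) x =
      6 * Df U P x - 3 * T x x U - 3 * T x U U - T U U U := by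
    intro x
    show (6 * P (x * U) - T (x * U) (x * U) (x * U)) - (6 * P x - T x x x) = _
    have : T (x * U) (x * U) (x * U) = T x x x + 3 * T x x U + 3 * T x U U + T U U U := by
      rw [h3, h4, h4, h3', h3', h3', h3']
      rw [h2 x U x, h1 U x x, h2 x U x, h1 U x U, h2 U U x, h1 U x U]
      ring
    rw [this]
    unfold Df
    ring
  have e2 : ∀ x, Df V (Df U (fun D => 6 * P D - T D D D)) x =
      6 * Df V (Df U P) x - 6 * T x V U - 3 * T V V U - 3 * T V U U := by
    intro x
    show Df U (fun D => 6 * P D - T D D D) (x * V) - Df U (fun D => 6 * P D - T D D D) x = _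
    rw [e1, e1]
    have : T (x * V) (x * V) U = T x x U + 2 * T x V U + T V V U := by
      rw [h3, h4, h4, h1 V x U]
      ring
    rw [this, h3 x V U U]
    show _ = 6 * (Df U P (x * V) - Df U P x) - 6 * T x V U - 3 * T V V U - 3 * T V U U
    ring
  have e3 : ∀ x, Df V (Df U (fun D => 6 * P D - T D D D)) x =
      Df V (Df U (fun D => 6 * P D - T D D D)) 1 := by
    intro x
    rw [e2, e2]
    have h5 : Df V (Df U P) x = Df x (Df V (Df U P)) 1 + Df V (Df U P) 1 := by
      show _ = (Df V (Df U P) (1 * x) - Df V (Df U P) 1) + Df V (Df U P) 1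
      rw [one_mul]
      ring
    have h6 : T 1 V U = 0 := by
      have := h3 1 1 V U
      rw [mul_one] at this
      linarith
    rw [h5, ← hTe U V x 1, h6, h2 U V x, h1 U x V, h2 x U V]
    ring
  show Df V (Df U (fun D => 6 * P D - T D D D)) W = Df V (Df U (fun D => 6 * P D - T D D D)) y
  rw [e3 W, e3 y]

end Pool.Agent.H20.TS
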