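import Pool.Agent.H20.TS.Thr
import Pool.Agent.H20.TS.Dec
import Pool.Agent.H20.TS.Co
import Pool.Agent.H20.TK.Vol
import Pool.Agent.H32.TU.RFP

/-!
# [H20 TS Any] the trilinear form and the linear form of a threefold, any Picard number

If for every ample divisor `A` the function `h0 (n A)` is `a n³ + b n + c` with `b > 0` for large `n`, then there are
`T` (symmetric, trilinear, with integral values), `l` additive and `c` with `h0 (W + n A) = T / 6 + l + c` at `W + n A`
for large `n`; `T` and `l` vanish on the numerically trivial divisors, and `l > 0` on the ample ones.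
-/

set_option autoImplicit false

namespace Pool.Agent.H20.TS

open Pool.Agent.H57.KM Pool.Agent.H54.RV Pool.Agent.H83.TU Pool.Agent.H20.TK

variable {k K : Type} [Field k] [Field K] [Algebra k K] {X : Mod k K}

private theorem add_pow' {f : Cart X → ℤ} (hf : ∀ U V, f (U * V) = f U + f V) (A : Cart X) (n : ℕ) :
    f (A ^ n) = n * f A := by
  induction n with
  | zero =>
    have := hf 1 1
    rw [mul_one] at this
    rw [pow_zero]
    push_cast
    linarith
  | succ n ih =>
    rw [pow_succ, hf, ih]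
    push_cast
    ring

private theorem add_inv' {f : Cart X → ℤ} (hf : ∀ U V, f (U * V) = f U + f V) (A : Cart X) : f A⁻¹ = - f A := by
  have h1 := hf 1 1
  rw [mul_one] at h1
  have h2 := hf A A⁻¹
  rw [mul_inv_cancel] at h2
  linarith

private theorem add_zpow' {f : Cart X → ℤ} (hf : ∀ U V, f (U * V) = f U + f V) (A : Cart X) (n : ℤ) :
    f (A ^ n) = n * f A := by
  obtain ⟨m, rfl | rfl⟩ := n.eq_nat_or_neg
  · rw [zpow_natCast, add_pow' hf]
  · rw [zpow_neg, zpow_natCast, add_inv' hf, add_pow' hf]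
    ring

/-- an additive function which vanishes on the ample divisors is zero -/
private theorem add_zero' (hX : IsVar X) (hA : ∃ A : Cart X, Ample A) {f : Cart X → ℤ}
    (hf : ∀ U V, f (U * V) = f U + f V) (h0 : ∀ A, Ample A → f A = 0) (D : Cart X) : f D = 0 := by
  obtain ⟨A, hA⟩ := hA
  obtain ⟨m, hm, hamp⟩ := ample_add hX A D hA
  have h1 := h0 _ hamp
  rw [hf, add_pow' hf, h0 A hA] at h1
  linarith

theorem any_of [CharZero k] [IsAlgClosed k] [T0Space X.P] (h : Hyp X)
    (hH : ∀ A : Cart X, Ample A → ∃ a b c : ℝ, 0 < b ∧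
      ∃ n₀ : ℕ, ∀ n : ℕ, n₀ ≤ n → (h0 A n : ℝ) = a * (n : ℝ) ^ 3 + b * n + c) :
    ∃ (T : Cart X → Cart X → Cart X → ℤ) (l : Cart X → ℝ) (c : ℝ),
      (∀ U V W, T U V W = T V U W) ∧ (∀ U V W, T U V W = T U W V) ∧
      (∀ U U' V W, T (U * U') V W = T U V W + T U' V W) ∧ (∀ U V, l (U * V) = l U + l V) ∧
      (∀ A, Ample A → 0 < l A) ∧ (∀ N, NumZ N → (∀ V W, T N V W = 0) ∧ l N = 0) ∧
      ∀ W A, Ample A → ∃ n₀ : ℕ, ∀ n ≥ n₀, (h0 (W * A ^ n) 1 : ℝ) =
        (T (W * A ^ n) (W * A ^ n) (W * A ^ n) : ℝ) / 6 + l (W * A ^ n) + c := by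
  obtain ⟨P, hP, hev, hnum⟩ := thr h
  obtain ⟨T, hT1, hT2, hT3, hTQ, hTe⟩ := dec3 hP
  obtain ⟨B, m, c, hB1, hB2, hm, hQ⟩ := dec2 hTQ
  have hPe : ∀ D, 12 * P D = 2 * T D D D + B D D + m D + c := fun D => by
    have := hQ D
    linarith
  have hB3 : ∀ U V V', B U (V * V') = B U V + B U V' := fun U V V' => by
    rw [hB1, hB2, hB1 V, hB1 V']
  -- along an ample divisor
  have hamp : ∀ A, Ample A → B A A = 0 ∧ 0 < m A := by
    intro A hA
    obtain ⟨a, b, e, hb, n₀, hn⟩ := hH A hA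
    obtain ⟨n₁, hn1⟩ := hev 1 A hA
    have key : ∀ n : ℕ, max n₀ n₁ ≤ n → (12 * a - 2 * (T A A A : ℝ)) * (n : ℝ) ^ 3 + (- (B A A : ℝ)) * (n : ℝ) ^ 2 +
        (12 * b - (m A : ℝ)) * n + (12 * e - c) = 0 := by
      intro n hmn
      have h1 := hn n (le_trans (le_max_left _ _) hmn)
      have h2 := hn1 n (le_trans (le_max_right _ _) hmn)
      rw [one_mul] at h2
      have h3 := hPe (A ^ n)
      have hTn : T (A ^ n) (A ^ n) (A ^ n) = n ^ 3 * T A A A := by
        rw [add_pow' (f := fun U => T U (A ^ n) (A ^ n)) (fun U V => hT3 U V _ _)]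
        show (n : ℤ) * T A (A ^ n) (A ^ n) = _
        rw [hT1, add_pow' (f := fun U => T U A (A ^ n)) (fun U V => hT3 U V _ _)]
        show (n : ℤ) * (n * T A A (A ^ n)) = _
        rw [hT2, hT1, add_pow' (f := fun U => T U A A) (fun U V => hT3 U V _ _)]
        ring
      have hBn : B (A ^ n) (A ^ n) = n ^ 2 * B A A := by
        rw [add_pow' (f := fun U => B U (A ^ n)) (fun U V => hB2 U V _)]
        show (n : ℤ) * B A (A ^ n) = _
        rw [hB1, add_pow' (f := fun U => B U A) (fun U V => hB2 U V _)]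
        ring
      rw [hTn, hBn, add_pow' hm] at h3
      rw [h0_n] at h1
      have h4 : (h0 (A ^ n) 1 : ℝ) = (P (A ^ n) : ℝ) := by exact_mod_cast h2
      have h5 : 12 * (P (A ^ n) : ℝ) = 2 * ((n : ℝ) ^ 3 * (T A A A : ℝ)) + (n : ℝ) ^ 2 * (B A A : ℝ) + n * (m A : ℝ) + c := by
        exact_mod_cast h3
      rw [h4] at h1
      linarith
    obtain ⟨-, h2, h3, -⟩ := co_zero key
    refine ⟨by exact_mod_cast (neg_eq_zero.1 h2), ?_⟩
    have : (0 : ℝ) < m A := by linarith
    exact_mod_cast this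
  -- `B = 0`
  have hB0 : ∀ U V, B U V = 0 := by
    have h1 : ∀ A A', Ample A → Ample A' → B A A' = 0 := by
      intro A A' hA hA'
      have h2 := (hamp _ (ample_mul h.var _ _ hA hA')).1
      rw [hB2, hB3, hB3, (hamp A hA).1, (hamp A' hA').1, hB1 A' A] at h2
      linarith
    have h2 : ∀ A, Ample A → ∀ U, B U A = 0 := fun A hA =>
      add_zero' h.var h.amp (f := fun U => B U A) (fun U V => hB2 U V A) fun A' hA' => h1 A' A hA' hA
    intro U V
    rw [hB1]
    exact add_zero' h.var h.amp (f := fun V => B V U) (fun V V' => hB2 V V' U) (fun A hA => by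
      show B A U = 0
      rw [hB1]
      exact h2 A hA U) V
  -- numerically trivial divisors
  have hnz : ∀ N, NumZ N → (∀ V W, T N V W = 0) ∧ m N = 0 := by
    intro N hN
    obtain ⟨A, hA⟩ := h.amp
    have hAN : ∀ n : ℤ, Ample (A * N ^ n) := fun n => H32.TU.num_pow N hN A hA n
    refine ⟨fun V W => ?_, ?_⟩
    · rw [hTe N V W 1]
      have h1 : PolF 0 (Df V (Df N P)) := hnum N A hA hAN V
      show Df V (Df N P) (1 * W) - Df V (Df N P) 1 = 0
      rw [h1 (1 * W) 1, sub_self]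
    · have h1 : ∀ n : ℤ, 0 < m A + n * m N := by
        intro n
        have := (hamp _ (hAN n)).2
        rwa [hm, add_zpow' hm] at this
      have h2 := h1 (m A)
      have h3 := h1 (- m A)
      have h4 := (hamp A hA).2
      by_contra hne
      rcases lt_or_gt_of_ne hne with h5 | h5
      · nlinarith
      · nlinarith
  refine ⟨T, fun D => (m D : ℝ) / 12, (c : ℝ) / 12, hT1, hT2, hT3, fun U V => ?_, fun A hA => ?_, fun N hN =>
    ⟨(hnz N hN).1, ?_⟩, fun W A hA => ?_⟩
  · show ((m (U * V) : ℤ) : ℝ) / 12 = _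
    rw [hm]
    push_cast
    ring
  · have : (0 : ℝ) < m A := by exact_mod_cast (hamp A hA).2
    positivity
  · show ((m N : ℤ) : ℝ) / 12 = 0
    rw [(hnz N hN).2]
    simp
  · obtain ⟨n₀, hn⟩ := hev W A hA
    refine ⟨n₀, fun n hn' => ?_⟩
    have h1 := hn n hn'
    have h2 := hPe (W * A ^ n)
    rw [hB0] at h2
    have h3 : (h0 (W * A ^ n) 1 : ℝ) = (P (W * A ^ n) : ℝ) := by exact_mod_cast h1
    have h4 : 12 * (P (W * A ^ n) : ℝ) = 2 * (T (W * A ^ n) (W * A ^ n) (W * A ^ n) : ℝ) + 0 + (m (W * A ^ n) : ℝ) + c := by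
      exact_mod_cast h2
    rw [h3]
    show _ = _ + ((m (W * A ^ n) : ℤ) : ℝ) / 12 + _
    linarith

end Pool.Agent.H20.TS
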