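import Pool.Agent.H41.TW.Sys
import Pool.Agent.H24.TK.Ser
import Pool.Agent.H24.TK.Fin

/-!
# [H20 TS Lsa] linear systems in all classes (row 5)

`A` ample, `W` any divisor: for some `n` both `W + n A` and `n A` have linear systems without common zeros which are not
constant.  (So these divisors generate the group of all Cartier divisors.)

Proof.  `exists_lsys` (`H41/TW/Sys`) does `A ^ m` for one `m`; its proof gives all `A ^ (m j)` with `j` large (`m` from
`exists_fr`, `uf_all` holds for all large exponents).  For `W + n A`: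
(1) for every point `x` there is `n₀ x` such that for `n ≥ n₀ x` (or for all large multiples `n` of one `m`) there is
`t ∈ secL (W * A ^ n) 1` with `Un (X.O x) (t * (W * A ^ n).eq x)`.  Two ways: (a) the theorem of Serre `ser_ample hX hA z W`
with `z` a closed point in the closure of `x` (the space of sections on `subM hX z` contains a unit); (b) as in the proof
of `uf_all` (`H83/TU/UB`), for the function `f = (W.eq x)⁻¹` (the local generator of `W`): `s f ∈ secL (W * A ^ n) 1` for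
a section `s` of `A ^ n` with `Un (X.O x) (s * (A ^ n).eq x)`; look also for lemmas in `H39/TK/Twi`, `H39/TK/Use`,
`H24/TK/Frm`, `H83/TU/AM`.
(2) the set of the points where `t` generates is open and `X.P` is compact (Noetherian): finitely many `t` for one `n`.
(3) a transcendental quotient: multiply a nonzero section of `W * A ^ n'` with `s₀, s₀ f` as in `exists_lsys`.
-/

set_option autoImplicit false

namespace Pool.Agent.H20.TS

open Pool.Agent.H54.RV Pool.Agent.H83.TU Pool.Agent.H83.TK Pool.Agent.H24.TK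

variable {k K : Type} [Field k] [Field K] [Algebra k K] {X : Mod k K}

/-- `M` has a linear system without common zeros which is not constant -/
def HasL (M : Cart X) : Prop := ∃ (σ : Type) (_ : Fintype σ) (s : Option σ → K), LSys X M s

private theorem mem_nhd' (hX : IsVar X) (x : X.P) (b : K) (hb : b ∈ X.O x) :
    ∃ U : Set X.P, IsOpen U ∧ x ∈ U ∧ ∀ y ∈ U, b ∈ X.O y := by
  obtain ⟨U, hU, hx⟩ := hX.chart x
  obtain ⟨s, hs, hsu, hbs⟩ := hX.frac U x hU hx b hb
  have hs' : ∀ y ∈ U, s ∈ X.O y := fun y hy => by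
    have h := Algebra.mem_iInf.1 hs y
    exact Algebra.mem_iInf.1 h hy
  have hbs' : ∀ y ∈ U, b * s ∈ X.O y := fun y hy => by
    have h := Algebra.mem_iInf.1 hbs y
    exact Algebra.mem_iInf.1 h hy
  refine ⟨{y | y ∈ U ∧ Un (X.O y) s}, hX.op _ (hX.basic U s hU hs'), ⟨hx, hsu⟩, ?_⟩
  rintro y ⟨hy, h0, -, hi⟩
  have h := (X.O y).mul_mem (hbs' y hy) hi
  rwa [mul_assoc, mul_inv_cancel₀ h0, mul_one] at h

/-- the set where a function generates is a neighbourhood of its points -/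
private theorem nz_nhds (hX : IsVar X) (D : Cart X) (u : K) (x : X.P) (h : x ∈ nz D 1 u) :
    nz D 1 u ∈ nhds x := by
  have h1 : Un (X.O x) (u * D.eq x) := by
    have h2 : Un (X.O x) (u * D.eq x ^ 1) := h
    rwa [pow_one] at h2
  obtain ⟨U, hU, hxU, hU'⟩ := mem_nhd' hX x _ h1.2.1
  obtain ⟨V, hV, hxV, hV'⟩ := mem_nhd' hX x _ h1.2.2
  obtain ⟨Z, hZ, hxZ, hZ'⟩ := D.loc x
  refine Filter.mem_of_superset ((hU.inter (hV.inter hZ)).mem_nhds ⟨hxU, hxV, hxZ⟩) ?_
  rintro y ⟨hy1, hy2, hy3⟩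
  have h3 : Un (X.O y) (u * D.eq x) := ⟨h1.1, hU' y hy1, hV' y hy2⟩
  have h4 := un_mul h3 (hZ' y hy3)
  change Un (X.O y) (u * D.eq y ^ 1)
  have h5 : u * D.eq x * (D.eq y / D.eq x) = u * D.eq y ^ 1 := by
    have := D.ne x
    field_simp
  rwa [h5] at h4

private theorem sec_pow1 (D : Cart X) (s : K) (hs : Sec D 1 s) (e : ℕ) : Sec (D ^ e) 1 (s ^ e) := by
  intro x
  have h := hs x
  rw [pow_one] at h
  rw [pow_one, pow_eq, ← mul_pow]
  exact (X.O x).pow_mem h e

private theorem nz_pow1 (D : Cart X) (s : K) (e : ℕ) (x : X.P) (h : x ∈ nz D 1 s) :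
    x ∈ nz (D ^ e) 1 (s ^ e) := by
  have h1 : Un (X.O x) (s * D.eq x ^ 1) := h
  have h2 := un_pow h1 e
  change Un (X.O x) (s ^ e * (D ^ e).eq x ^ 1)
  rw [pow_one, mul_pow] at h2
  rw [pow_one, pow_eq]
  exact h2

private theorem div_eq (A W : Cart X) (m a b : ℕ) :
    A ^ (m * a) * W * (A ^ m) ^ b = W * A ^ (m * (a + b)) := by
  rw [← pow_mul, mul_comm (A ^ (m * a)) W, mul_assoc, ← pow_add, ← mul_add]

/-- all large multiples have linear systems -/
private theorem hasL_large [CharZero k] (hX : IsVar X) (hg : ∃ g, Gen X g) {A : Cart X} (hA : Ample A)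
    (htr : Algebra.trdeg k K ≠ 0) : ∃ m : ℕ, ∀ W : Cart X, ∃ N₀ : ℕ, ∀ N ≥ N₀, HasL (W * A ^ (m * N)) := by
  classical
  obtain ⟨g, hgg⟩ := hg
  obtain ⟨f, hf⟩ : ∃ f : K, Transcendental k f := by
    by_contra hcon
    push Not at hcon
    apply htr
    rw [trdeg_eq_zero_iff]
    exact ⟨fun a => by
      by_contra h
      exact hcon a h⟩
  obtain ⟨m₁, h1⟩ := uf_all hX A {g} f hA (fun x hx => by
    rw [Finset.mem_singleton.1 hx, hgg.top]
    exact Algebra.mem_top)
  obtain ⟨m, hm, r, t, ht⟩ := exists_fr hX A hA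
  refine ⟨m, fun W => ?_⟩
  choose m₀ hm₀ using fun x : X.P => un_pt hX A W hA x
  choose s hs hsx using fun x : X.P => hm₀ x (m * m₀ x) (Nat.le_mul_of_pos_left _ hm)
  have hcomp := hX.comp
  obtain ⟨T, -, hT⟩ := isCompact_univ.elim_nhds_subcover
    (fun x => nz (A ^ (m * m₀ x) * W) 1 (s x)) (fun x _ => nz_nhds hX _ _ x (hsx x))
  obtain ⟨N₁, hN₁⟩ : ∃ N₁ : ℕ, N₁ = ∑ y ∈ T, m₀ y + m₀ g := ⟨_, rfl⟩
  have hTle : ∀ y ∈ T, m₀ y ≤ N₁ := fun y hy => by
    have h2 := Finset.single_le_sum (f := m₀) (fun _ _ => Nat.zero_le _) hy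
    omega
  refine ⟨N₁ + m₁, fun N hN => ?_⟩
  have hN1 : N₁ ≤ N := by omega
  obtain ⟨u, hu, hug⟩ := hm₀ g (m * N₁) (by
    have h2 : N₁ ≤ m * N₁ := Nat.le_mul_of_pos_left _ hm
    omega)
  have hu0 : u ≠ 0 := by
    rintro rfl
    exact hug.1 (zero_mul _)
  obtain ⟨s₀, hs0, hs0f, hgn⟩ := h1 (m * (N - N₁)) (by
    have h2 : N - N₁ ≤ m * (N - N₁) := Nat.le_mul_of_pos_left _ hm
    omega)
  have hgn' := hgn g (Finset.mem_singleton_self g)
  have hs00 : s₀ ≠ 0 := by
    rintro rfl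
    exact hgn'.1 (zero_mul _)
  have hsec0 : ∀ v : K, Sec A (m * (N - N₁)) v → Sec (W * A ^ (m * N)) 1 (u * v) := by
    intro v hv
    have h2 := sec_mul _ _ u v hu ((sec_iff_pow A _ v).1 hv)
    have h3 : A ^ (m * N₁) * W * A ^ (m * (N - N₁)) = W * A ^ (m * N) := by
      have h4 := div_eq A W m N₁ (N - N₁)
      rw [← pow_mul] at h4
      rw [h4]
      congr 3
      omega
    rwa [h3] at h2
  have hdiv : ∀ y ∈ T, A ^ (m * m₀ y) * W * (A ^ m) ^ (N - m₀ y) = W * A ^ (m * N) := by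
    intro y hy
    rw [div_eq]
    congr 3
    have := hTle y hy
    omega
  refine ⟨({y // y ∈ T} × Fin r) ⊕ Bool, inferInstance,
    fun i => match i with
      | none => 0
      | some (Sum.inl p) => s p.1.1 * t p.2 ^ (N - m₀ p.1.1)
      | some (Sum.inr true) => u * s₀
      | some (Sum.inr false) => u * (s₀ * f), ?_, ?_, ?_⟩
  · intro i
    match i with
    | none => exact (secL _ 1).zero_mem
    | some (Sum.inl p) =>
      have h2 := sec_mul _ _ _ _ (hs p.1.1) (sec_pow1 _ _ (ht.sec p.2) (N - m₀ p.1.1))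
      rw [hdiv p.1.1 p.1.2] at h2
      exact h2
    | some (Sum.inr true) => exact hsec0 _ hs0
    | some (Sum.inr false) => exact hsec0 _ hs0f
  · intro x
    obtain ⟨y, hyT, hy⟩ := Set.mem_iUnion₂.1 (hT (Set.mem_univ x))
    obtain ⟨j, hj⟩ := ht.cov x
    refine ⟨some (Sum.inl (⟨y, hyT⟩, j)), ?_⟩
    have h2 := nz_mul _ _ _ _ x hy (nz_pow1 _ _ (N - m₀ y) x hj)
    rw [hdiv y hyT] at h2
    have h3 : Un (X.O x) (s y * t j ^ (N - m₀ y) * (W * A ^ (m * N)).eq x ^ 1) := h2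
    rw [pow_one] at h3
    exact h3
  · refine ⟨some (Sum.inr false), some (Sum.inr true), mul_ne_zero hu0 hs00, ?_⟩
    change Transcendental k (u * (s₀ * f) / (u * s₀))
    rw [← mul_assoc, mul_div_cancel_left₀ _ (mul_ne_zero hu0 hs00)]
    exact hf

theorem hasL_pair [CharZero k] (hX : IsVar X) (hg : ∃ g, Gen X g) {A : Cart X} (hA : Ample A)
    (htr : Algebra.trdeg k K ≠ 0) (W : Cart X) : ∃ n : ℕ, HasL (W * A ^ n) ∧ HasL (A ^ n) := by
  obtain ⟨m, h⟩ := hasL_large hX hg hA htr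
  obtain ⟨N₁, h1⟩ := h W
  obtain ⟨N₂, h2⟩ := h 1
  refine ⟨m * (N₁ + N₂), h1 _ (by omega), ?_⟩
  have h3 := h2 (N₁ + N₂) (by omega)
  rwa [one_mul] at h3

end Pool.Agent.H20.TS
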