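import Pool.Agent.H41.TW.Crv
import Pool.Agent.H20.TS.Lsa

/-!
# [H20 TS Cvg] generic curves in all linear systems (row 6)

`V` a projective surface (any, also singular), `M` with a linear system: the generic member `C` of it, an integral
projective curve over an extension `k'` of `k`, with the restriction `φ : Cart V →* Cart C`.  This is the proof of
`exists_curve` (`H41/TW/Crv.lean`) word for word, with `V` for `subM hX z` and `M` for `A ^ m`.
-/

set_option autoImplicit false

namespace Pool.Agent.H20.TS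

open Pool.Agent.H54.RV Pool.Agent.H83.TU Pool.Agent.H83.TK Pool.Agent.H24.TK Pool.Agent.H41.TK

variable {k K : Type} [Field k] [Field K] [Algebra k K] {V : Mod k K}

theorem curve_g [CharZero k] [T0Space V.P] (hV : IsVar V) (hg : ∃ g, Gen V g) (hA : ∃ A : Cart V, Ample A)
    (htr : Algebra.trdeg k K = 2) {M : Cart V} (hM : HasL M) :
    ∃ (k' K' : Type) (_ : Field k') (_ : Field K') (_ : Algebra k' K') (_ : CharZero k') (C : Mod k' K')
      (φ : Cart V →* Cart C), Crv C ∧ (∀ D, Ample D → Ample (φ D)) ∧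
      (∀ W : Cart V, h0 W 1 ≤ h0 (W * M⁻¹) 1 + h0 (φ W) 1) ∧
      ∀ W D : Cart V, Ample D → ∃ n₀ : ℕ, ∀ n ≥ n₀,
        h0 (W * D ^ n) 1 = h0 (W * D ^ n * M⁻¹) 1 + h0 (φ (W * D ^ n)) 1 := by
  classical
  obtain ⟨A, hA⟩ := hA
  obtain ⟨σ, hσ, s, hs⟩ := hM
  obtain ⟨k', K', i1, i2, i3, i4, i5, i6, i7, i8, l, h⟩ := exists_bc k K σ
  obtain ⟨z', hsl, hSPr, htr', -⟩ := gs_main hV hg h hs
  have hV' := isVar_bc hV hg h
  have hchar : CharZero k' := charZero_of_injective_algebraMap (algebraMap k k').injective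
  have hAV' : Ample (bcD hV hg h A) := bc_ample hV hg h _ hA
  have hgC : ∃ g, Gen (subM hV' z') g := ⟨_, gen_sub hV' z'⟩
  have hVC := isVar_sub hV' z'
  have hAC := res_ample hV' z' _ hAV'
  -- dimensions of the pull-back
  have hfd : ∀ W : Cart V, FiniteDimensional k (secL W 1) := fun W => fd hV hg hA _
  have e1 : ∀ W : Cart V, FiniteDimensional k' (secL (bcD hV hg h W) 1) ∧
      h0 (bcD hV hg h W) 1 = h0 W 1 := fun W => by
    have := hfd W
    exact bc_h0 hV hg h W 1
  have e2 : ∀ W : Cart V, FiniteDimensional k' (secL (resD hV' z' (bcD hV hg h W)) 1) := fun W =>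
    fd hVC hgC hAC _
  have e3 : ∀ W : Cart V, h0 ((bcD hV hg h W) ^ 1 *
      (bcD hV hg h M * prin (bcM V h) (gsec K' l s) hsl)⁻¹) 1 =
        h0 (W * M⁻¹) 1 := by
    intro W
    rw [H41.TW.h0_div_prin, pow_one, ← map_inv, ← map_mul]
    exact (e1 _).2
  refine ⟨k', (bcM V h).kap z', inferInstance, inferInstance, inferInstance, hchar, subM hV' z',
    (resD hV' z').comp (bcD hV hg h), ⟨hVC, hgC, ⟨_, hAC⟩, ?_⟩, ?_, ?_, ?_⟩
  · rw [htr, ← one_add_one_eq_two] at htr'
    exact Cardinal.add_one_inj.1 htr'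
  · intro D hD
    exact res_ample hV' z' _ (bc_ample hV hg h _ hD)
  · intro W
    have := (e1 W).1
    have := e2 W
    have h1 := ex_le hV' hSPr (bcD hV hg h W) 1
    rw [e3, (e1 W).2] at h1
    exact h1
  · intro W D hD
    obtain ⟨n₀, hn⟩ := ser_ample hV' (bc_ample hV hg h _ hD) z' (bcD hV hg h W)
    refine ⟨n₀, fun n hn' => ?_⟩
    have h2 := hn n hn'
    have h3 : bcD hV hg h W * bcD hV hg h D ^ n = bcD hV hg h (W * D ^ n) := by
      rw [map_mul, map_pow]
    rw [h3] at h2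
    have := (e1 (W * D ^ n)).1
    have := e2 (W * D ^ n)
    have h1 := ex_dim hV' hSPr (bcD hV hg h (W * D ^ n)) 1
    rw [e3, (e1 _).2, LinearMap.range_eq_top.2 h2, finrank_top] at h1
    exact h1

end Pool.Agent.H20.TS
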