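import Mathlib

/-!
# [H20 TS Def] the Snapper chapter of THEOREM K (MP_e49dc9_ag): polynomial functions on a commutative group

`PolF d f`: all differences of order `d + 1` of `f : G → ℤ` vanish.
-/

set_option autoImplicit false

namespace Pool.Agent.H20.TS

/-- the polynomial functions of degree at most `d` on a commutative group -/
def PolF {G : Type} [CommGroup G] : ℕ → (G → ℤ) → Prop
  | 0, f => ∀ x y, f x = f y
  | d + 1, f => ∀ g, PolF d fun x => f (x * g) - f x

end Pool.Agent.H20.TS
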