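import Pool.Agent.H20.TS.Pol

/-!
# [H20 TS Ext] extrapolation (row 2; Mathlib only)

`f : G → ℤ` is a function whose differences `f x - f (x m⁻¹)`, `m` in a generating set, are polynomial of degree `d` for
large translates by the powers of `A`: so is `f`, with degree `d + 1`.

Proof of `ext_poly`.
(1) The set of all `g` with `∃ Q, PolF d Q ∧ ∀ W, ∃ n₀, ∀ n ≥ n₀, f (W A ^ n) - f (W A ^ n g⁻¹) = Q (W A ^ n)` is a
subgroup, so all `g` are in it: `1` with `Q = 0`; for `g h`: `f x - f (x (g h)⁻¹) = (f x - f (x g⁻¹)) + (f (x g⁻¹) -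
f (x g⁻¹ h⁻¹))`, `Q x = Q_g x + Q_h (x g⁻¹)` (hypothesis for `h` with `W g⁻¹`); for `g⁻¹`: `f x - f (x g) = - (f (x g) -
f (x g g⁻¹))`, `Q x = - Q_g (x g)`.  Choose `Q g` (`choose`).
(2) Put `E W N = f (W A ^ N) - ∑ j ∈ range N, Q A (W A ^ (j + 1))`.  As `f (W A ^ (N + 1)) - f (W A ^ N) =
Q A (W A ^ (N + 1))` for `N + 1 ≥ n₀ W`, `E W N` does not depend on `N ≥ n₀ W`.  Let `P W` be this value (`P W =
E W (n₀ W)`).
(3) `P (W A ^ n) = f (W A ^ n)` for `n ≥ n₀ W`: take `N` large; `f (W A ^ (n + N)) - ∑ j < N, Q A (W A ^ (n + j + 1)) =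
f (W A ^ n)` by telescoping.
(4) `Q A x - Q A (x g⁻¹) = Q g x - Q g (x A⁻¹)` for all `x`: both are polynomial (`PolF d`), and for `x = W A ^ n`, `n`
large, both are `f x - f (x A⁻¹) - f (x g⁻¹) + f (x g⁻¹ A⁻¹)`; `PolF.zero_of_ev` for the difference.
(5) `P x - P (x g⁻¹) = Q g x` for all `x, g`: with `N` large, `E x N - E (x g⁻¹) N = Q g (x A ^ N) -
∑ j < N, (Q A (x A ^ (j + 1)) - Q A (x A ^ (j + 1) g⁻¹)) = Q g (x A ^ N) - ∑ j < N, (Q g (x A ^ (j + 1)) -
Q g (x A ^ j)) = Q g x` (telescoping).  So `P (x g) - P x = Q g (x g)` is polynomial of degree `d` (`PolF.shift`).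
-/

set_option autoImplicit false

namespace Pool.Agent.H20.TS

variable {G : Type} [CommGroup G] {d : ℕ}

theorem ext_poly (A : G) (f : G → ℤ) (M : Set G) (hM : Subgroup.closure M = ⊤)
    (h : ∀ m ∈ M, ∃ Q : G → ℤ, PolF d Q ∧
      ∀ W, ∃ n₀ : ℕ, ∀ n ≥ n₀, f (W * A ^ n) - f (W * A ^ n * m⁻¹) = Q (W * A ^ n)) :
    ∃ P : G → ℤ, PolF (d + 1) P ∧ ∀ W, ∃ n₀ : ℕ, ∀ n ≥ n₀, f (W * A ^ n) = P (W * A ^ n) := by
  have key : ∀ g ∈ Subgroup.closure M, ∃ Q : G → ℤ, PolF d Q ∧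
      ∀ W, ∃ n₀ : ℕ, ∀ n ≥ n₀, f (W * A ^ n) - f (W * A ^ n * g⁻¹) = Q (W * A ^ n) := by
    intro g hg
    induction hg using Subgroup.closure_induction with
    | mem m hm => exact h m hm
    | one =>
      refine ⟨fun _ => 0, PolF.const d 0, fun W => ⟨0, fun n _ => ?_⟩⟩
      rw [inv_one, mul_one, sub_self]
    | mul a b _ _ iha ihb =>
      obtain ⟨Qa, ha1, ha2⟩ := iha
      obtain ⟨Qb, hb1, hb2⟩ := ihb
      refine ⟨fun x => Qa x + Qb (x * a⁻¹), PolF.add ha1 (PolF.shift a⁻¹ hb1), fun W => ?_⟩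
      obtain ⟨n1, h1⟩ := ha2 W
      obtain ⟨n2, h2⟩ := hb2 (W * a⁻¹)
      refine ⟨max n1 n2, fun n hn => ?_⟩
      have e1 := h1 n ((le_max_left _ _).trans hn)
      have e2 := h2 n ((le_max_right _ _).trans hn)
      rw [mul_right_comm W a⁻¹ (A ^ n)] at e2
      have e3 : W * A ^ n * (a * b)⁻¹ = W * A ^ n * a⁻¹ * b⁻¹ := by rw [mul_inv, mul_assoc (W * A ^ n)]
      show f (W * A ^ n) - f (W * A ^ n * (a * b)⁻¹) = Qa (W * A ^ n) + Qb (W * A ^ n * a⁻¹)
      rw [e3, ← e1, ← e2]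
      ring
    | inv a _ iha =>
      obtain ⟨Qa, ha1, ha2⟩ := iha
      refine ⟨fun x => - Qa (x * a), PolF.neg (PolF.shift a ha1), fun W => ?_⟩
      obtain ⟨n1, h1⟩ := ha2 (W * a)
      refine ⟨n1, fun n hn => ?_⟩
      have e1 := h1 n hn
      rw [mul_right_comm W a (A ^ n), mul_inv_cancel_right] at e1
      show f (W * A ^ n) - f (W * A ^ n * (a⁻¹)⁻¹) = - Qa (W * A ^ n * a)
      rw [inv_inv, ← e1]
      ring
  choose Q hQ1 hQ2 using fun g : G => key g (by rw [hM]; exact Subgroup.mem_top g)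
  choose n0 hn0 using hQ2
  obtain ⟨E, hE⟩ : ∃ E : G → ℕ → ℤ, ∀ W N, E W N = f (W * A ^ N) - ∑ j ∈ Finset.range N, Q A (W * A ^ (j + 1)) :=
    ⟨_, fun _ _ => rfl⟩
  have hstep : ∀ W N, n0 A W ≤ N + 1 → f (W * A ^ (N + 1)) - f (W * A ^ N) = Q A (W * A ^ (N + 1)) := by
    intro W N hN
    have e1 := hn0 A W (N + 1) hN
    rw [pow_succ, ← mul_assoc, mul_inv_cancel_right] at e1
    rw [pow_succ, ← mul_assoc]
    exact e1
  have hEc : ∀ W N, n0 A W ≤ N → E W N = E W (n0 A W) := by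
    intro W N hN
    induction N, hN using Nat.le_induction with
    | base => rfl
    | succ N hN ih =>
      rw [← ih, hE, hE, Finset.sum_range_succ, ← hstep W N (by omega)]
      ring
  have h3 : ∀ W n, n0 A W ≤ n → f (W * A ^ n) = E (W * A ^ n) (n0 A (W * A ^ n)) := by
    intro W n hn
    have h4 : ∀ N, E (W * A ^ n) N = f (W * A ^ n) := by
      intro N
      induction N with
      | zero => rw [hE, Finset.sum_range_zero, pow_zero, mul_one, sub_zero]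
      | succ N ih =>
        rw [hE] at ih
        rw [hE, Finset.sum_range_succ]
        have e1 := hstep W (n + N) (by omega)
        have e2 : W * A ^ n * A ^ (N + 1) = W * A ^ (n + N + 1) := by
          rw [mul_assoc, ← pow_add, add_assoc]
        have e3 : W * A ^ n * A ^ N = W * A ^ (n + N) := by
          rw [mul_assoc, ← pow_add]
        rw [e2, ← e1]
        rw [e3] at ih
        linarith
    exact (h4 _).symm
  have h4 : ∀ g x, Q A x - Q A (x * g⁻¹) = Q g x - Q g (x * A⁻¹) := by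
    intro g x
    have h5 : PolF d (fun x => (Q A x - Q A (x * g⁻¹)) - (Q g x - Q g (x * A⁻¹))) :=
      PolF.sub (PolF.sub (hQ1 A) (PolF.shift g⁻¹ (hQ1 A))) (PolF.sub (hQ1 g) (PolF.shift A⁻¹ (hQ1 g)))
    have h6 := PolF.zero_of_ev A h5 (fun W => ?_) x
    · linarith
    · refine ⟨max (max (n0 A W) (n0 A (W * g⁻¹))) (max (n0 g W) (n0 g (W * A⁻¹))), fun n hn => ?_⟩
      have b1 : n0 A W ≤ n := (le_max_left _ _).trans ((le_max_left _ _).trans hn)
      have b2 : n0 A (W * g⁻¹) ≤ n := (le_max_right _ _).trans ((le_max_left _ _).trans hn)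
      have b3 : n0 g W ≤ n := (le_max_left _ _).trans ((le_max_right _ _).trans hn)
      have b4 : n0 g (W * A⁻¹) ≤ n := (le_max_right _ _).trans ((le_max_right _ _).trans hn)
      have e1 := hn0 A W n b1
      have e2 := hn0 A (W * g⁻¹) n b2
      have e3 := hn0 g W n b3
      have e4 := hn0 g (W * A⁻¹) n b4
      rw [mul_right_comm W g⁻¹ (A ^ n)] at e2
      rw [mul_right_comm W A⁻¹ (A ^ n)] at e4
      rw [mul_right_comm (W * A ^ n) A⁻¹ g⁻¹] at e4
      show (Q A (W * A ^ n) - Q A (W * A ^ n * g⁻¹)) - (Q g (W * A ^ n) - Q g (W * A ^ n * A⁻¹)) = 0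
      rw [← e1, ← e2, ← e3, ← e4]
      ring
  have h5 : ∀ g x, E x (n0 A x) - E (x * g⁻¹) (n0 A (x * g⁻¹)) = Q g x := by
    intro g x
    obtain ⟨N, hN⟩ : ∃ N, N = max (max (n0 A x) (n0 A (x * g⁻¹))) (n0 g x) := ⟨_, rfl⟩
    have b1 : n0 A x ≤ N := by rw [hN]; exact (le_max_left _ _).trans (le_max_left _ _)
    have b2 : n0 A (x * g⁻¹) ≤ N := by rw [hN]; exact (le_max_right _ _).trans (le_max_left _ _)
    have b3 : n0 g x ≤ N := by rw [hN]; exact le_max_right _ _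
    rw [← hEc x N b1, ← hEc (x * g⁻¹) N b2, hE, hE]
    have e1 := hn0 g x N b3
    have e2 : ∑ j ∈ Finset.range N, Q A (x * A ^ (j + 1)) - ∑ j ∈ Finset.range N, Q A (x * g⁻¹ * A ^ (j + 1)) =
        Q g (x * A ^ N) - Q g (x * A ^ 0) := by
      rw [← Finset.sum_sub_distrib, ← Finset.sum_range_sub (fun j => Q g (x * A ^ j)) N]
      refine Finset.sum_congr rfl fun j _ => ?_
      have e3 := h4 g (x * A ^ (j + 1))
      have e4 : x * A ^ (j + 1) * A⁻¹ = x * A ^ j := by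
        rw [pow_succ, ← mul_assoc, mul_inv_cancel_right]
      rw [e4] at e3
      rw [mul_right_comm x g⁻¹ (A ^ (j + 1))]
      exact e3
    rw [pow_zero, mul_one] at e2
    rw [mul_right_comm x g⁻¹ (A ^ N)]
    linarith
  refine ⟨fun x => E x (n0 A x), fun g => ?_, fun W => ⟨n0 A W, fun n hn => h3 W n hn⟩⟩
  have h6 : (fun x => E (x * g) (n0 A (x * g)) - E x (n0 A x)) = fun x => Q g (x * g) := by
    funext x
    have e1 := h5 g (x * g)
    rw [mul_inv_cancel_right] at e1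
    exact e1
  show PolF d (fun x => E (x * g) (n0 A (x * g)) - E x (n0 A x))
  rw [h6]
  exact PolF.shift g (hQ1 g)

/-- the differences of the extrapolation: `P x - P (x m⁻¹) - Q x` is `PolF (d + 1)` and `0` for large `n` -/
theorem diff_eq (A m : G) (f P Q : G → ℤ) (hP : PolF (d + 1) P) (hQ : PolF d Q)
    (h1 : ∀ W, ∃ n₀ : ℕ, ∀ n ≥ n₀, f (W * A ^ n) = P (W * A ^ n))
    (h2 : ∀ W, ∃ n₀ : ℕ, ∀ n ≥ n₀, f (W * A ^ n) - f (W * A ^ n * m⁻¹) = Q (W * A ^ n)) (x : G) :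
    P x - P (x * m⁻¹) = Q x := by
  have h3 : PolF (d + 1) (fun x => (P x - P (x * m⁻¹)) - Q x) :=
    PolF.sub (PolF.sub hP (PolF.shift m⁻¹ hP)) (PolF.succ hQ)
  have h4 := PolF.zero_of_ev A h3 (fun W => ?_) x
  · linarith
  · obtain ⟨n1, e1⟩ := h1 W
    obtain ⟨n2, e2⟩ := h1 (W * m⁻¹)
    obtain ⟨n3, e3⟩ := h2 W
    refine ⟨max (max n1 n2) n3, fun n hn => ?_⟩
    have f1 := e1 n ((le_max_left _ _).trans ((le_max_left _ _).trans hn))
    have f2 := e2 n ((le_max_right _ _).trans ((le_max_left _ _).trans hn))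
    have f3 := e3 n ((le_max_right _ _).trans hn)
    rw [mul_right_comm W m⁻¹ (A ^ n)] at f2
    show (P (W * A ^ n) - P (W * A ^ n * m⁻¹)) - Q (W * A ^ n) = 0
    rw [← f1, ← f2, ← f3]
    ring

end Pool.Agent.H20.TS
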