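import Pool.Agent.H20.TS.Ext

/-!
# [H20 TS Glue] one polynomial for all ample directions (row 3; Mathlib only)

`Am`: a set of elements of `G` (the ample divisors).  `M`: generators of `G`; some power of each `B ∈ Am` is a product of
elements of `M`.  For `m ∈ M` the difference `f x - f (x m⁻¹)` is `Q x` (`PolF d`) for large translates in each direction
`A ∈ Am`, and it is `≤ Q x` for all `x = W A ^ n B ^ j` with `n ≥ n₀ (W, A, B)` and ALL `j`.  Then `f` is polynomial of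
degree `d + 1` in the same uniform sense.

Proof.  For `A ∈ Am` let `P_A` be the function of `ext_poly`.
(1) `P_A - P_B` is constant for `A, B ∈ Am`: by `diff_eq` `P_A x - P_A (x m⁻¹) = Q_m x = P_B x - P_B (x m⁻¹)` for `m ∈ M`;
`const_of_gen`.
(2) For all `W, A, B` and `c ∈ Submonoid.closure M` there is `n₀` with `f x - f (x c⁻¹) ≤ P_A x - P_A (x c⁻¹)` for all
`x = W A ^ n B ^ j`, `n ≥ n₀`, all `j`: induction on `c` (for all `W`): `c = 1` clear, `c ∈ M`: hypothesis and `diff_eq`,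
products: `x` and `x c⁻¹ = (W c⁻¹) A ^ n B ^ j`.
(3) `f x ≤ P_A x` for all `x = W A ^ n B ^ j`, `n ≥ n₀`, all `j`: `B ^ b ∈ Submonoid.closure M`, `b ≥ 1`.  For `j < b` by
`ext_poly` for `W B ^ j` (finitely many `j`).  For `j ≥ b`: `f x - P_A x ≤ f (x B ^ (- b)) - P_A (x B ^ (- b))` by (2),
`x B ^ (- b) = W A ^ n B ^ (j - b)`: strong induction on `j`.
(4) `P_B ≤ P_A` for `A, B ∈ Am`: take `n ≥ n₀` of (3) for `W = 1`; `f (A ^ n B ^ j) = P_B (A ^ n B ^ j)` for large `j`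
(`ext_poly` for `B` with `W = A ^ n`; `G` is commutative).  So `P_B ≤ P_A` at this point, so everywhere by (1).  By
symmetry `P_A = P_B`: put `P = P_A` for one `A ∈ Am`.
(5) `f x ≥ P x` for `x = W A ^ n B ^ j`, `n ≥ n₁`, all `j`: `A ^ a ∈ Submonoid.closure M`, `a ≥ 1`; by (2) with
`c = A ^ a`: `f y - P y ≤ f (y A ^ (- a)) - P (y A ^ (- a))` for `y = W A ^ n' B ^ j`, `n' ≥ n₁`.  So `f x - P x ≥
f (x A ^ a) - P (x A ^ a) ≥ ... ≥ f (x A ^ (a i)) - P (x A ^ (a i))` for all `i`, and this is `0` for large `i`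
(`ext_poly` for `A` with `W B ^ j`).
-/

set_option autoImplicit false

namespace Pool.Agent.H20.TS

variable {G : Type} [CommGroup G] {d : ℕ}

theorem glue (Am : Set G) (hne : Am.Nonempty) (f : G → ℤ) (M : Set G) (hM : Subgroup.closure M = ⊤)
    (hAm : ∀ B ∈ Am, ∃ b : ℕ, 1 ≤ b ∧ B ^ b ∈ Submonoid.closure M)
    (h : ∀ m ∈ M, ∃ Q : G → ℤ, PolF d Q ∧
      (∀ W, ∀ A ∈ Am, ∃ n₀ : ℕ, ∀ n ≥ n₀, f (W * A ^ n) - f (W * A ^ n * m⁻¹) = Q (W * A ^ n)) ∧
      ∀ W, ∀ A ∈ Am, ∀ B ∈ Am, ∃ n₀ : ℕ, ∀ n ≥ n₀, ∀ j : ℕ,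
        f (W * A ^ n * B ^ j) - f (W * A ^ n * B ^ j * m⁻¹) ≤ Q (W * A ^ n * B ^ j)) :
    ∃ P : G → ℤ, PolF (d + 1) P ∧ ∀ W, ∀ A ∈ Am, ∀ B ∈ Am, ∃ n₀ : ℕ, ∀ n ≥ n₀, ∀ j : ℕ,
      f (W * A ^ n * B ^ j) = P (W * A ^ n * B ^ j) := by
  choose! Q hQ1 hQ2 hQ3 using h
  have hP : ∀ A ∈ Am, ∃ P : G → ℤ, PolF (d + 1) P ∧
      ∀ W, ∃ n₀ : ℕ, ∀ n ≥ n₀, f (W * A ^ n) = P (W * A ^ n) := fun A hA =>
    ext_poly A f M hM (fun m hm => ⟨Q m, hQ1 m hm, fun W => hQ2 m hm W A hA⟩)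
  choose! P hP1 hP2 using hP
  have hdiff : ∀ A ∈ Am, ∀ m ∈ M, ∀ x, P A x - P A (x * m⁻¹) = Q m x := fun A hA m hm x =>
    diff_eq A m f (P A) (Q m) (hP1 A hA) (hQ1 m hm) (hP2 A hA) (fun W => hQ2 m hm W A hA) x
  -- (1)
  have h1 : ∀ A ∈ Am, ∀ B ∈ Am, ∀ x y, P A x - P B x = P A y - P B y := by
    intro A hA B hB x y
    refine const_of_gen (f := fun x => P A x - P B x) M hM (fun m hm x => ?_) x y
    have e1 := hdiff A hA m hm x
    have e2 := hdiff B hB m hm x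
    show P A x - P B x = P A (x * m⁻¹) - P B (x * m⁻¹)
    linarith
  -- (2)
  have h2 : ∀ A ∈ Am, ∀ B ∈ Am, ∀ c ∈ Submonoid.closure M, ∀ W, ∃ n₀ : ℕ, ∀ n ≥ n₀, ∀ j : ℕ,
      f (W * A ^ n * B ^ j) - f (W * A ^ n * B ^ j * c⁻¹) ≤
        P A (W * A ^ n * B ^ j) - P A (W * A ^ n * B ^ j * c⁻¹) := by
    intro A hA B hB c hc
    induction hc using Submonoid.closure_induction with
    | mem m hm =>
      intro W
      obtain ⟨n0, h0⟩ := hQ3 m hm W A hA B hB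
      refine ⟨n0, fun n hn j => ?_⟩
      rw [hdiff A hA m hm]
      exact h0 n hn j
    | one =>
      intro W
      refine ⟨0, fun n _ j => ?_⟩
      rw [inv_one, mul_one, sub_self, sub_self]
    | mul a b _ _ iha ihb =>
      intro W
      obtain ⟨n1, e1⟩ := iha W
      obtain ⟨n2, e2⟩ := ihb (W * a⁻¹)
      refine ⟨max n1 n2, fun n hn j => ?_⟩
      have f1 := e1 n ((le_max_left _ _).trans hn) j
      have f2 := e2 n ((le_max_right _ _).trans hn) j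
      rw [mul_right_comm W a⁻¹ (A ^ n), mul_right_comm (W * A ^ n) a⁻¹ (B ^ j)] at f2
      have f3 : W * A ^ n * B ^ j * (a * b)⁻¹ = W * A ^ n * B ^ j * a⁻¹ * b⁻¹ := by
        rw [mul_inv, mul_assoc (W * A ^ n * B ^ j)]
      rw [f3]
      linarith
  -- (3)
  have h3 : ∀ A ∈ Am, ∀ B ∈ Am, ∀ W, ∃ n₀ : ℕ, ∀ n ≥ n₀, ∀ j : ℕ,
      f (W * A ^ n * B ^ j) ≤ P A (W * A ^ n * B ^ j) := by
    intro A hA B hB W
    obtain ⟨b, hb1, hb2⟩ := hAm B hB
    obtain ⟨n1, e1⟩ := h2 A hA B hB (B ^ b) hb2 W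
    choose N hN using fun j : ℕ => hP2 A hA (W * B ^ j)
    refine ⟨max n1 ((Finset.range b).sup N), fun n hn => ?_⟩
    have hn1 : n1 ≤ n := (le_max_left _ _).trans hn
    have hn2 : ∀ j < b, N j ≤ n := fun j hj =>
      (Finset.le_sup (Finset.mem_range.2 hj)).trans ((le_max_right _ _).trans hn)
    intro j
    induction j using Nat.strong_induction_on with
    | _ j ih =>
      rcases Nat.lt_or_ge j b with hj | hj
      · have f1 := hN j n (hn2 j hj)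
        rw [mul_right_comm W (B ^ j) (A ^ n)] at f1
        exact f1.le
      · have f1 := e1 n hn1 j
        have f2 := ih (j - b) (by omega)
        have f3 : W * A ^ n * B ^ j * (B ^ b)⁻¹ = W * A ^ n * B ^ (j - b) := by
          have f4 : B ^ j = B ^ (j - b) * B ^ b := by rw [← pow_add]; congr 1; omega
          rw [f4, ← mul_assoc, mul_inv_cancel_right]
        rw [f3] at f1
        linarith
  -- (4)
  have h4 : ∀ A ∈ Am, ∀ B ∈ Am, ∀ x, P B x ≤ P A x := by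
    intro A hA B hB x
    obtain ⟨n, e1⟩ := h3 A hA B hB 1
    obtain ⟨j, e2⟩ := hP2 B hB (1 * A ^ n)
    have f1 := e1 n le_rfl j
    have f2 := e2 j le_rfl
    have f3 := h1 A hA B hB x (1 * A ^ n * B ^ j)
    linarith
  obtain ⟨A0, hA0⟩ := hne
  have h4' : ∀ A ∈ Am, P A = P A0 := fun A hA =>
    funext fun x => le_antisymm (h4 A0 hA0 A hA x) (h4 A hA A0 hA0 x)
  refine ⟨P A0, hP1 A0 hA0, fun W A hA B hB => ?_⟩
  -- (5)
  obtain ⟨a, ha1, ha2⟩ := hAm A hA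
  obtain ⟨n1, e1⟩ := h2 A hA B hB (A ^ a) ha2 W
  obtain ⟨n2, e2⟩ := h3 A hA B hB W
  rw [h4' A hA] at e1 e2
  refine ⟨max n1 n2, fun n hn j => ?_⟩
  have hn1 : n1 ≤ n := (le_max_left _ _).trans hn
  have hn2 : n2 ≤ n := (le_max_right _ _).trans hn
  refine le_antisymm (e2 n hn2 j) ?_
  have h5 : ∀ i : ℕ, f (W * A ^ (n + a * i) * B ^ j) - P A0 (W * A ^ (n + a * i) * B ^ j) ≤
      f (W * A ^ n * B ^ j) - P A0 (W * A ^ n * B ^ j) := by
    intro i
    induction i with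
    | zero => rw [mul_zero, add_zero]
    | succ i ih =>
      have f1 := e1 (n + a * (i + 1)) (by omega) j
      have f3 : W * A ^ (n + a * (i + 1)) * B ^ j * (A ^ a)⁻¹ = W * A ^ (n + a * i) * B ^ j := by
        have f4 : A ^ (n + a * (i + 1)) = A ^ (n + a * i) * A ^ a := by
          rw [← pow_add]; congr 1; ring
        rw [f4, ← mul_assoc W, mul_right_comm (W * A ^ (n + a * i)) (A ^ a) (B ^ j),
          mul_inv_cancel_right]
      rw [f3] at f1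
      linarith
  obtain ⟨n3, e3⟩ := hP2 A hA (W * B ^ j)
  rw [h4' A hA] at e3
  have f5 : n3 ≤ n + a * n3 := by nlinarith
  have f6 := e3 (n + a * n3) f5
  rw [mul_right_comm W (B ^ j) (A ^ (n + a * n3))] at f6
  have f7 := h5 n3
  rw [f6, sub_self] at f7
  linarith

end Pool.Agent.H20.TS
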