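import Pool.Agent.H20.TS.Def

/-!
# [H20 TS Pol] polynomial functions: first properties (row 1; Mathlib only)

All by induction on `d` (statement for all `f`).
* `of_gen`: let `S = {g | PolF d (x ↦ f x - f (x g⁻¹))}`.  `S` is a subgroup (so `S = ⊤`): `f x - f (x (g h)⁻¹) =
  (f x - f (x g⁻¹)) + (f (x g⁻¹) - f (x g⁻¹ h⁻¹))` is the sum of one function and of a translate (`shift`) of the other,
  and `f x - f (x g) = - (f (x g) - f (x g g⁻¹))`.  With `g` for all `g`: `f (x g) - f x` is a translate of
  `x ↦ f x - f (x g⁻¹)`.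
* `zero_of_ev`: induction on `d`.  `d = 0`: clear.  `d + 1`: `x ↦ f (x g) - f x` satisfies the hypothesis, so it is `0`;
  so `f` is constant, so it is `0`.
-/

set_option autoImplicit false

namespace Pool.Agent.H20.TS

variable {G H : Type} [CommGroup G] [CommGroup H] {d : ℕ} {f g : G → ℤ}

private theorem PolF.of_eq (hf : PolF d f) (e : ∀ x, g x = f x) : PolF d g := by
  have h : g = f := funext e
  rwa [h]

theorem PolF.const (d : ℕ) (c : ℤ) : PolF d (fun _ : G => c) := by
  induction d generalizing c with
  | zero => exact fun _ _ => rfl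
  | succ d ih => exact fun a => PolF.of_eq (ih 0) (fun _ => sub_self c)

theorem PolF.add (hf : PolF d f) (hg : PolF d g) : PolF d (fun x => f x + g x) := by
  induction d generalizing f g with
  | zero =>
    intro x y
    show f x + g x = f y + g y
    rw [hf x y, hg x y]
  | succ d ih =>
    intro a
    exact PolF.of_eq (ih (hf a) (hg a)) (fun x => by ring)

theorem PolF.neg (hf : PolF d f) : PolF d (fun x => - f x) := by
  induction d generalizing f with
  | zero =>
    intro x y
    show - f x = - f y
    rw [hf x y]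
  | succ d ih =>
    intro a
    exact PolF.of_eq (ih (hf a)) (fun x => by ring)

theorem PolF.sub (hf : PolF d f) (hg : PolF d g) : PolF d (fun x => f x - g x) :=
  PolF.of_eq (PolF.add hf (PolF.neg hg)) (fun x => sub_eq_add_neg _ _)

theorem PolF.shift (a : G) (hf : PolF d f) : PolF d (fun x => f (x * a)) := by
  induction d generalizing f with
  | zero => exact fun x y => hf _ _
  | succ d ih =>
    intro b
    refine PolF.of_eq (ih (hf b)) (fun x => ?_)
    show f (x * b * a) - f (x * a) = f (x * a * b) - f (x * a)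
    rw [mul_right_comm x b a]

theorem PolF.comp (φ : H →* G) (hf : PolF d f) : PolF d (fun x => f (φ x)) := by
  induction d generalizing f with
  | zero => exact fun x y => hf _ _
  | succ d ih =>
    intro b
    refine PolF.of_eq (ih (hf (φ b))) (fun x => ?_)
    show f (φ (x * b)) - f (φ x) = f (φ x * φ b) - f (φ x)
    rw [map_mul]

theorem PolF.succ (hf : PolF d f) : PolF (d + 1) f := by
  induction d generalizing f with
  | zero =>
    intro a
    exact PolF.of_eq (PolF.const 0 0) (fun x => by rw [hf (x * a) x, sub_self])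
  | succ d ih => exact fun a => ih (hf a)

theorem PolF.hom (φ : G → ℤ) (hφ : ∀ x y, φ (x * y) = φ x + φ y) (c : ℤ) : PolF 1 (fun x => φ x + c) := by
  intro a
  refine PolF.of_eq (PolF.const 0 (φ a)) (fun x => ?_)
  show φ (x * a) + c - (φ x + c) = φ a
  rw [hφ]
  ring

/-- an affine function is a homomorphism plus a constant -/
theorem PolF.exists_hom (hf : PolF 1 f) : ∃ (φ : G → ℤ) (c : ℤ), (∀ x y, φ (x * y) = φ x + φ y) ∧ ∀ x, f x = φ x + c := by
  refine ⟨fun x => f x - f 1, f 1, fun x y => ?_, fun x => by ring⟩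
  have h : f (x * y) - f x = f (1 * y) - f 1 := hf y x 1
  rw [one_mul] at h
  show f (x * y) - f 1 = (f x - f 1) + (f y - f 1)
  linarith

theorem PolF.of_gen (M : Set G) (hM : Subgroup.closure M = ⊤)
    (h : ∀ m ∈ M, PolF d (fun x => f x - f (x * m⁻¹))) : PolF (d + 1) f := by
  have key : ∀ a ∈ Subgroup.closure M, PolF d (fun x => f x - f (x * a⁻¹)) := by
    intro a ha
    induction ha using Subgroup.closure_induction with
    | mem m hm => exact h m hm
    | one => exact PolF.of_eq (PolF.const d 0) (fun x => by rw [inv_one, mul_one, sub_self])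
    | mul a b _ _ iha ihb =>
      refine PolF.of_eq (PolF.add iha (PolF.shift a⁻¹ ihb)) (fun x => ?_)
      have e : x * (a * b)⁻¹ = x * a⁻¹ * b⁻¹ := by rw [mul_inv, mul_assoc]
      rw [e]
      ring
    | inv a _ iha =>
      refine PolF.of_eq (PolF.neg (PolF.shift a iha)) (fun x => ?_)
      rw [inv_inv, mul_inv_cancel_right]
      ring
  intro a
  refine PolF.of_eq (PolF.shift a (key a (by rw [hM]; exact Subgroup.mem_top a))) (fun x => ?_)
  rw [mul_inv_cancel_right]

theorem const_of_gen (M : Set G) (hM : Subgroup.closure M = ⊤) (h : ∀ m ∈ M, ∀ x, f x = f (x * m⁻¹)) (x y : G) :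
    f x = f y := by
  have key : ∀ a ∈ Subgroup.closure M, ∀ x, f x = f (x * a⁻¹) := by
    intro a ha
    induction ha using Subgroup.closure_induction with
    | mem m hm => exact h m hm
    | one => exact fun x => by rw [inv_one, mul_one]
    | mul a b _ _ iha ihb =>
      intro x
      rw [iha x, ihb (x * a⁻¹), mul_inv, mul_assoc]
    | inv a _ iha =>
      intro x
      rw [inv_inv, iha (x * a), mul_inv_cancel_right]
  have h1 := key (y⁻¹ * x) (by rw [hM]; exact Subgroup.mem_top _) x
  rw [h1]
  congr 1
  rw [mul_inv_rev, inv_inv, mul_inv_cancel_left]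

theorem PolF.zero_of_ev (A : G) (hf : PolF d f) (h0 : ∀ W, ∃ n₀ : ℕ, ∀ n ≥ n₀, f (W * A ^ n) = 0) (x : G) : f x = 0 := by
  induction d generalizing f x with
  | zero =>
    obtain ⟨n, hn⟩ := h0 1
    rw [hf x (1 * A ^ n)]
    exact hn n le_rfl
  | succ d ih =>
    have h1 : ∀ a x, f (x * a) - f x = 0 := by
      intro a x
      refine ih (f := fun x => f (x * a) - f x) (hf a) (fun W => ?_) x
      obtain ⟨n1, h1⟩ := h0 (W * a)
      obtain ⟨n2, h2⟩ := h0 W
      refine ⟨max n1 n2, fun n hn => ?_⟩
      show f (W * A ^ n * a) - f (W * A ^ n) = 0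
      rw [h2 n ((le_max_right _ _).trans hn), mul_right_comm, h1 n ((le_max_left _ _).trans hn), sub_zero]
    obtain ⟨n, hn⟩ := h0 1
    have h2 := h1 (x⁻¹ * (1 * A ^ n)) x
    rw [mul_inv_cancel_left, hn n le_rfl] at h2
    linarith

end Pool.Agent.H20.TS
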