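import Pool.Agent.H20.TS.Glue
import Pool.Agent.H20.TS.Cvg
import Pool.Agent.H41.TK.DG

/-!
# [H20 TS Srf] the polynomial of a surface (row 7)

Proof.  `glue` for `G = Cart V`, `Am` the ample divisors, `f D = h0 D 1`, `M = {D | HasL D}`, `d = 1`.
* `Subgroup.closure M = ⊤`: `hasL_pair`: `W = (W A ^ n) (A ^ n)⁻¹`.
* `B ^ b ∈ M` for some `b ≥ 1`: `exists_lsys`.
* `m ∈ M`: `C, φ` of `curve_g`, `Q D = dg (φ D) + chi C` (`PolF.hom`, `dg_mul`).  `h0 E 1 = dg E + chi C` on `C` if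
  `dg E > - 2 chi C` (`H41/TK/DG` or `H1`: the statement used in `NLC.nl_curve`).  Let `E = φ (W A ^ n B ^ j)`: `dg E =
  dg (φ W) + n dg (φ A) + j dg (φ B)` with `dg (φ A), dg (φ B) ≥ 1` (`dg_ample`), so `dg E > - 2 chi C` for `n ≥ n₀` and
  all `j`.  Both statements follow.
* the last part: for `m ∈ M` `P x - P (x m⁻¹) = dg (φ x) + chi C` (`diff_eq`); so for `g x = P (x N) - P x`:
  `g x - g (x m⁻¹) = dg (φ N) = 0` (`dg (φ A) + n dg (φ N) > 0` for all integers `n`, as in `dg_numz_hom`);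
  `const_of_gen`.
-/

set_option autoImplicit false

namespace Pool.Agent.H20.TS

open Pool.Agent.H54.RV Pool.Agent.H83.TU Pool.Agent.H83.TK Pool.Agent.H24.TK Pool.Agent.H41.TK

variable {k K : Type} [Field k] [Field K] [Algebra k K] {V : Mod k K}

private theorem srf_dg [CharZero k] (h : Crv V) {G : Type} [CommGroup G] (φ : G →* Cart V)
    (N A : G) (hN : ∀ n : ℤ, Ample (φ (A * N ^ n))) : dg (φ N) = 0 := by
  have hz : ∀ n : ℤ, dg (φ N ^ n) = n * dg (φ N) := by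
    intro n
    cases n with
    | ofNat n =>
      rw [Int.ofNat_eq_natCast, zpow_natCast, dg_pow h]
    | negSucc n =>
      rw [zpow_negSucc, dg_inv h, dg_pow h, Int.negSucc_eq]
      push_cast
      ring
  have key : ∀ n : ℤ, 0 < dg (φ A) + n * dg (φ N) := by
    intro n
    have h1 := dg_ample h _ (hN n)
    rwa [map_mul, map_zpow, dg_mul h, hz] at h1
  have h0 := key 0
  rw [zero_mul, add_zero] at h0
  by_contra hne
  rcases lt_or_gt_of_ne hne with h5 | h5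
  · have := key (dg (φ A))
    nlinarith
  · have := key (-dg (φ A))
    nlinarith

private theorem srf_diff [CharZero k] [T0Space V.P] (hV : IsVar V) (hg : ∃ g, Gen V g)
    (hA : ∃ A : Cart V, Ample A) (htr : Algebra.trdeg k K = 2) {m : Cart V} (hm : HasL m) :
    ∃ Q : Cart V → ℤ, PolF 1 Q ∧
      (∀ W A : Cart V, Ample A → ∃ n₀ : ℕ, ∀ n ≥ n₀,
        (h0 (W * A ^ n) 1 : ℤ) - h0 (W * A ^ n * m⁻¹) 1 = Q (W * A ^ n)) ∧
      (∀ W A B : Cart V, Ample A → Ample B → ∃ n₀ : ℕ, ∀ n ≥ n₀, ∀ j : ℕ,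
        (h0 (W * A ^ n * B ^ j) 1 : ℤ) - h0 (W * A ^ n * B ^ j * m⁻¹) 1 ≤ Q (W * A ^ n * B ^ j)) ∧
      ∀ N A : Cart V, Ample A → (∀ n : ℤ, Ample (A * N ^ n)) → ∀ x, Q (x * N) = Q x := by
  obtain ⟨k', K', i1, i2, i3, i4, C, φ, hC, hφ, h1, h2⟩ := curve_g hV hg hA htr hm
  have hdg : ∀ x y : Cart V, dg (φ (x * y)) = dg (φ x) + dg (φ y) := fun x y => by
    rw [map_mul, dg_mul hC]
  have hdp : ∀ (x : Cart V) (n : ℕ), dg (φ (x ^ n)) = n * dg (φ x) := fun x n => by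
    rw [map_pow, dg_pow hC]
  have hpos : ∀ A : Cart V, Ample A → 1 ≤ dg (φ A) := fun A hA => dg_ample hC _ (hφ A hA)
  have hlow : ∀ (W A B : Cart V), Ample A → Ample B → ∃ n₀ : ℕ, ∀ n ≥ n₀, ∀ j : ℕ,
      (h0 (φ (W * A ^ n * B ^ j)) 1 : ℤ) = dg (φ (W * A ^ n * B ^ j)) + chi C := by
    intro W A B hA hB
    refine ⟨(1 - 2 * chi C - dg (φ W)).toNat, fun n hn j => h0_eq hC _ ?_⟩
    rw [hdg, hdg, hdp, hdp]
    have h3 := hpos A hA
    have h4 := hpos B hB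
    have h5 : (1 - 2 * chi C - dg (φ W)) ≤ n := Int.toNat_le.1 hn
    have h6 : (n : ℤ) ≤ n * dg (φ A) := by
      have : (0 : ℤ) ≤ n := Int.natCast_nonneg n
      nlinarith
    have h7 : (0 : ℤ) ≤ j * dg (φ B) := mul_nonneg (Int.natCast_nonneg j) (by omega)
    omega
  refine ⟨fun D => dg (φ D) + chi C, PolF.hom (fun D => dg (φ D)) hdg (chi C), ?_, ?_, ?_⟩
  · intro W A hA
    obtain ⟨n₀, hn₀⟩ := h2 W A hA
    obtain ⟨n₁, hn₁⟩ := hlow W A A hA hA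
    refine ⟨max n₀ n₁, fun n hn => ?_⟩
    have h3 := hn₀ n (le_trans (le_max_left _ _) hn)
    have h4 := hn₁ n (le_trans (le_max_right _ _) hn) 0
    rw [pow_zero, mul_one] at h4
    show (h0 (W * A ^ n) 1 : ℤ) - h0 (W * A ^ n * m⁻¹) 1 = dg (φ (W * A ^ n)) + chi C
    rw [← h4, h3]
    push_cast
    ring
  · intro W A B hA hB
    obtain ⟨n₁, hn₁⟩ := hlow W A B hA hB
    refine ⟨n₁, fun n hn j => ?_⟩
    have h3 := h1 (W * A ^ n * B ^ j)
    have h4 := hn₁ n hn j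
    show (h0 (W * A ^ n * B ^ j) 1 : ℤ) - h0 (W * A ^ n * B ^ j * m⁻¹) 1 ≤ dg (φ (W * A ^ n * B ^ j)) + chi C
    rw [← h4]
    have h5 : (h0 (W * A ^ n * B ^ j) 1 : ℤ) ≤ h0 (W * A ^ n * B ^ j * m⁻¹) 1 + h0 (φ (W * A ^ n * B ^ j)) 1 := by
      exact_mod_cast h3
    omega
  · intro N A hA hN x
    have h3 : dg (φ N) = 0 := srf_dg hC φ N A fun n => hφ _ (hN n)
    show dg (φ (x * N)) + chi C = dg (φ x) + chi C
    rw [hdg, h3, add_zero]

theorem srf [CharZero k] [T0Space V.P] (hV : IsVar V) (hg : ∃ g, Gen V g) (hA : ∃ A : Cart V, Ample A)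
    (htr : Algebra.trdeg k K = 2) :
    ∃ P : Cart V → ℤ, PolF 2 P ∧
      (∀ W A B : Cart V, Ample A → Ample B → ∃ n₀ : ℕ, ∀ n ≥ n₀, ∀ j : ℕ,
        (h0 (W * A ^ n * B ^ j) 1 : ℤ) = P (W * A ^ n * B ^ j)) ∧
      ∀ N A : Cart V, Ample A → (∀ n : ℤ, Ample (A * N ^ n)) → ∀ D E, P (D * N) - P D = P (E * N) - P E := by
  have hne : Algebra.trdeg k K ≠ 0 := by
    rw [htr]
    exact two_ne_zero
  have hA' := hA
  obtain ⟨A₀, hA₀⟩ := hA'
  have hM : Subgroup.closure {D : Cart V | HasL D} = ⊤ := by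
    rw [eq_top_iff]
    intro W _
    obtain ⟨n, h1, h2⟩ := hasL_pair hV hg hA₀ hne W
    have h3 := Subgroup.mul_mem _ (Subgroup.subset_closure (k := {D : Cart V | HasL D}) h1)
      (Subgroup.inv_mem _ (Subgroup.subset_closure (k := {D : Cart V | HasL D}) h2))
    rwa [mul_inv_cancel_right] at h3
  choose! Q hQ1 hQ2 hQ3 hQ4 using fun (m : Cart V) (hm : HasL m) => srf_diff hV hg hA htr hm
  obtain ⟨P, hP1, hP2⟩ := glue (d := 1) {D : Cart V | Ample D} ⟨A₀, hA₀⟩ (fun D => (h0 D 1 : ℤ))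
    {D : Cart V | HasL D} hM (fun B hB => by
      obtain ⟨m, σ, hσ, s, hm, hs⟩ := H41.TW.exists_lsys hV hg hB hne
      exact ⟨m, hm, Submonoid.subset_closure ⟨σ, hσ, s, hs⟩⟩)
    fun m hm => ⟨Q m, hQ1 m hm, fun W A hA => hQ2 m hm W A hA, fun W A hA B hB => hQ3 m hm W A B hA hB⟩
  refine ⟨P, hP1, fun W A B hA hB => hP2 W A hA B hB, fun N A hA hN => ?_⟩
  have hd : ∀ m : Cart V, HasL m → ∀ x, P x - P (x * m⁻¹) = Q m x := fun m hm x =>
    diff_eq (d := 1) A₀ m (fun D => (h0 D 1 : ℤ)) P (Q m) hP1 (hQ1 m hm)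
      (fun W => by
        obtain ⟨n₀, hn₀⟩ := hP2 W A₀ hA₀ A₀ hA₀
        refine ⟨n₀, fun n hn => ?_⟩
        have h1 := hn₀ n hn 0
        rwa [pow_zero, mul_one] at h1)
      (fun W => hQ2 m hm W A₀ hA₀) x
  refine const_of_gen (f := fun x => P (x * N) - P x) {D : Cart V | HasL D} hM fun m hm x => ?_
  have h1 := hd m hm (x * N)
  have h2 := hd m hm x
  have h3 := hQ4 m hm N A hA hN x
  show P (x * N) - P x = P (x * m⁻¹ * N) - P (x * m⁻¹)
  rw [mul_right_comm x m⁻¹ N]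
  omega

end Pool.Agent.H20.TS
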