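import Pool.Agent.H20.TS.Srf
import Pool.Agent.H20.TK.Spt
import Pool.Agent.H32.TK.HC
import Pool.Agent.H24.TK.Noe

/-!
# [H20 TS Thr] the polynomial of a threefold (row 8)

Proof.  `glue` for `G = Cart X`, `Am` the ample divisors, `f D = h0 D 1`, `d = 2`, `M` the union of: the prime divisors
(`∃ z, SPr X z S`), the units (`Effective U` and `Effective U⁻¹`), the principal divisors `prin X f hf`.
* `Subgroup.closure M = ⊤`, and `B ^ b ∈ Submonoid.closure M` for ample `B` and some `b ≥ 1`: some `W A ^ n` and `A ^ n`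
  (the same `n`) have nonzero sections `s`; `W A ^ n prin (s)` is effective, so it is a product of primes and a unit
  (`factor`, `H32/TK/HA`).
* `m = S` prime with generic point `z`: `V = subM hX z`, `isVar_sub`, `gen_sub`, `t0_sub`, `res_ample`, `trdeg_spr h hS`;
  `Q D = P_V (resD hX z D)` with `P_V` of `srf` (`PolF.comp`).  `h0 D 1 ≤ h0 (D S⁻¹) 1 + h0 (resD z D) 1` (`ex_le`), with
  equality for `D = W A ^ n`, `n` large (`ex_dim`, `ser_ample`).  `h0 (resD z D) 1 = P_V (resD z D)` for all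
  `D = W A ^ n B ^ j`, `n ≥ n₀`.
* `m` a unit or principal: `Q = 0` (`h0 (D m⁻¹) 1 = h0 D 1`; `h0_prin`).
* the last part: `g D = P (D N) - P D`; for `m = S` prime `g D - g (D S⁻¹) = P_V (res D res N) - P_V (res D)` is constant
  (last part of `srf`), for units and principal divisors it is `0`; `PolF.of_gen` with `d = 0`.
-/

set_option autoImplicit false

namespace Pool.Agent.H20.TS

open Pool.Agent.H54.RV Pool.Agent.H83.TU Pool.Agent.H83.TK Pool.Agent.H24.TK Pool.Agent.H41.TK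

variable {k K : Type} [Field k] [Field K] [Algebra k K] {X : Mod k K}

variable (X) in
/-- generators: the prime divisors, the trivial divisors, the principal divisors -/
def MM : Set (Cart X) :=
  {S | ∃ z, SPr X z S} ∪ {U | Effective U ∧ Effective U⁻¹} ∪ {D | ∃ (f : K) (hf : f ≠ 0), D = prin X f hf}

private theorem strict [CharZero k] (h : Hyp X) {H : Cart X} {r : ℕ} {t : Fin r → K} (hF : Fr H r t) {z : X.P}
    {S : Cart X} (hS : SPr X z S) (W : Cart X) :
    ∃ (n : ℕ) (s : K), s ∈ secL (W * H ^ n) 1 ∧ s ∉ secL (W * H ^ n * S⁻¹) 1 := by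
  obtain ⟨n₀, hn₀⟩ := ser_ample h.var hF.ample z W
  obtain ⟨m, u, hu0, hu⟩ := exists_sec (isVar_sub h.var z) (hF.res h.var z) (resD h.var z W * resD h.var z H ^ n₀)
  have e : resD h.var z H ^ m * (resD h.var z W * resD h.var z H ^ n₀) = resD h.var z (W * H ^ (n₀ + m)) := by
    rw [map_mul, map_pow, pow_add]
    rw [mul_comm, mul_assoc]
  rw [e] at hu
  obtain ⟨s, hs⟩ := hn₀ (n₀ + m) (Nat.le_add_right _ _) ⟨u, hu⟩
  refine ⟨n₀ + m, s.1, s.2, fun h1 => hu0 ?_⟩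
  have h2 : s.1 ∈ secL ((W * H ^ (n₀ + m)) ^ 1 * S⁻¹) 1 := by
    rw [pow_one]
    exact h1
  have h3 := (ex_ker h.var hS _ 1 s).2 h2
  rw [h3] at hs
  exact (congrArg Subtype.val hs).symm

private noncomputable def JE (H : Cart X) {E : Cart X} (hE : Effective E) : HIdeal H where
  J n := secL (E⁻¹ * H ^ n) 1
  le n s hs := by
    intro x
    have h1 := hs x
    rw [pow_one, mul_eq, inv_eq, pow_eq] at h1
    have h2 : s * H.eq x ^ n = s * ((E.eq x)⁻¹ * H.eq x ^ n) * E.eq x := by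
      have := E.ne x
      field_simp
    rw [h2]
    exact (X.O x).mul_mem h1 (hE x)
  mul m n a b ha hb := by
    intro x
    have h1 := hb x
    have h0 := ha x
    rw [pow_one, mul_eq, inv_eq, pow_eq] at h1 ⊢
    have h2 : a * b * ((E.eq x)⁻¹ * H.eq x ^ (m + n)) =
        (a * H.eq x ^ m) * (b * ((E.eq x)⁻¹ * H.eq x ^ n)) := by
      rw [pow_add]
      ring
    rw [h2]
    exact (X.O x).mul_mem h0 h1

/-- an effective divisor is a product of prime divisors and of a trivial divisor -/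
theorem eff_mem [CharZero k] (h : Hyp X) {E : Cart X} (hE : Effective E) : E ∈ Submonoid.closure (MM X) := by
  by_contra hcon
  obtain ⟨A, hA⟩ := h.amp
  obtain ⟨m', -, r, t, hF⟩ := exists_fr h.var A hA
  have hstep : ∀ T : {E : Cart X // Effective E ∧ E ∉ Submonoid.closure (MM X)},
      ∃ T' : {E : Cart X // Effective E ∧ E ∉ Submonoid.closure (MM X)}, ∃ (z : X.P) (S : Cart X), SPr X z S ∧
        T'.1 = T.1 * S⁻¹ := by
    rintro ⟨T, hT, hTn⟩
    have h1 : ¬ Effective T⁻¹ := fun h2 => hTn (Submonoid.subset_closure (Or.inl (Or.inr ⟨hT, h2⟩)))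
    obtain ⟨P, S, hS, hTS⟩ := Pool.Agent.H32.TK.split_prime h hT h1
    refine ⟨⟨T * S⁻¹, hTS, fun h2 => hTn ?_⟩, P.η, S, hS, rfl⟩
    have h3 := Submonoid.mul_mem _ h2 (Submonoid.subset_closure (s := MM X) (Or.inl (Or.inl ⟨P.η, hS⟩)))
    rwa [inv_mul_cancel_right] at h3
  choose nx z S hS hnx using hstep
  obtain ⟨u, hu⟩ : ∃ u : ℕ → {E : Cart X // Effective E ∧ E ∉ Submonoid.closure (MM X)},
      u = fun i => nx^[i] ⟨E, hE, hcon⟩ := ⟨_, rfl⟩
  have hsucc : ∀ i, u (i + 1) = nx (u i) := by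
    intro i
    rw [hu]
    exact Function.iterate_succ_apply' _ _ _
  have hval : ∀ i, (u (i + 1)).1 = (u i).1 * (S (u i))⁻¹ := fun i => by rw [hsucc, hnx]
  obtain ⟨i₀, hi₀⟩ := hom_acc h.var h.gen hF (fun i => JE (A ^ m') (u i).2.1) (by
    intro i n s hs x
    have h1 := hs x
    rw [hval, pow_one, mul_eq, inv_eq, mul_eq, inv_eq]
    rw [pow_one, mul_eq, inv_eq] at h1
    have h2 : s * (((u i).1.eq x * ((S (u i)).eq x)⁻¹)⁻¹ * (((A ^ m') ^ n).eq x)) =
        s * (((u i).1.eq x)⁻¹ * (((A ^ m') ^ n).eq x)) * (S (u i)).eq x := by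
      have := (u i).1.ne x
      have := (S (u i)).ne x
      field_simp
    rw [h2]
    exact (X.O x).mul_mem h1 ((hS (u i)).eff x))
  obtain ⟨n, s, h1, h2⟩ := strict h hF (hS (u i₀)) ((u (i₀ + 1)).1⁻¹)
  have h3 := congrFun (hi₀ (i₀ + 1) (Nat.le_succ _)) n
  have h4 : s ∈ (JE (A ^ m') (u (i₀ + 1)).2.1).J n := h1
  rw [h3] at h4
  apply h2
  have h5 : (u (i₀ + 1)).1⁻¹ * (A ^ m') ^ n * (S (u i₀))⁻¹ = ((u i₀).1)⁻¹ * (A ^ m') ^ n := by
    rw [hval, mul_inv_rev, inv_inv, mul_right_comm, mul_right_comm (S (u i₀)), mul_inv_cancel, one_mul]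
  rw [h5]
  exact h4

private theorem prin_mul_inv (s : K) (hs : s ≠ 0) : prin X s hs * prin X s⁻¹ (inv_ne_zero hs) = 1 :=
  Cart.ext' _ _ fun _ => mul_inv_cancel₀ hs

private theorem prin_mem (s : K) (hs : s ≠ 0) : prin X s hs ∈ MM X := Or.inr ⟨s, hs, rfl⟩

/-- a divisor with a section -/
private theorem sec_mem [CharZero k] (h : Hyp X) {D : Cart X} {s : K} (hs0 : s ≠ 0) (hs : Sec D 1 s) :
    D ∈ Submonoid.closure (MM X) := by
  have h1 : Effective (D * prin X s hs0) := by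
    intro x
    have h2 := hs x
    rw [pow_one, mul_comm] at h2
    exact h2
  have h3 := Submonoid.mul_mem _ (eff_mem h h1) (Submonoid.subset_closure (prin_mem (X := X) s⁻¹ (inv_ne_zero hs0)))
  rwa [mul_assoc, prin_mul_inv, mul_one] at h3

private theorem amp_mem [CharZero k] (h : Hyp X) {B : Cart X} (hB : Ample B) :
    ∃ b : ℕ, 1 ≤ b ∧ B ^ b ∈ Submonoid.closure (MM X) := by
  obtain ⟨x⟩ := h.var.ne
  obtain ⟨n, hn, s, hs, hx, -⟩ := hB x
  refine ⟨n, hn, sec_mem h (s := s) ?_ ((sec_pow_iff B n s).2 hs)⟩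
  intro h0
  apply hx.1
  rw [h0, zero_mul]

private theorem clo_top [CharZero k] (h : Hyp X) : Subgroup.closure (MM X) = ⊤ := by
  rw [eq_top_iff]
  intro W _
  have hle : ∀ D ∈ Submonoid.closure (MM X), D ∈ Subgroup.closure (MM X) := by
    intro D hD
    have h1 : Submonoid.closure (MM X) ≤ (Subgroup.closure (MM X)).toSubmonoid :=
      Submonoid.closure_le.2 Subgroup.subset_closure
    exact h1 hD
  obtain ⟨A, hA⟩ := h.amp
  obtain ⟨m', -, r, t, hF⟩ := exists_fr h.var A hA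
  obtain ⟨m, s, hs0, hs⟩ := exists_sec h.var hF W
  obtain ⟨j, hj⟩ := hF.exists_ne h.var
  have h1 : A ^ m' ∈ Subgroup.closure (MM X) := hle _ (sec_mem h hj (hF.sec j))
  have h2 := hle _ (sec_mem h hs0 hs)
  have h3 := (Subgroup.closure (MM X)).mul_mem ((Subgroup.closure (MM X)).inv_mem
    ((Subgroup.closure (MM X)).pow_mem h1 m)) h2
  rwa [inv_mul_cancel_left] at h3

/-- the number of sections for a trivial divisor -/
private theorem h0_triv (D : Cart X) {U : Cart X} (h1 : Effective U) (h2 : Effective U⁻¹) :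
    h0 (D * U⁻¹) 1 = h0 D 1 := by
  have e : secL (D * U⁻¹) 1 = secL D 1 := by
    ext s
    constructor
    · intro hs x
      have h3 := (X.O x).mul_mem (hs x) (h1 x)
      rw [pow_one, mul_eq, inv_eq] at h3
      rw [pow_one]
      have h4 : s * (D.eq x * (U.eq x)⁻¹) * U.eq x = s * D.eq x := by
        have := U.ne x
        field_simp
      rwa [h4] at h3
    · intro hs x
      have h3 := (X.O x).mul_mem (hs x) (h2 x)
      rw [pow_one, inv_eq] at h3
      rw [pow_one, mul_eq, inv_eq, ← mul_assoc]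
      exact h3
  unfold h0
  rw [e]

private theorem h0_pr (D : Cart X) (f : K) (hf : f ≠ 0) : h0 (D * (prin X f hf)⁻¹) 1 = h0 D 1 := by
  have h1 := h0_prin (D * (prin X f hf)⁻¹) f hf
  rw [inv_mul_cancel_right] at h1
  exact h1.symm

/-- the differences of the numbers of sections for the generators -/
private theorem gen_diff [CharZero k] [T0Space X.P] (h : Hyp X) (m : Cart X) (hm : m ∈ MM X) :
    ∃ Q : Cart X → ℤ, PolF 2 Q ∧
      (∀ W A : Cart X, Ample A → ∃ n₀ : ℕ, ∀ n ≥ n₀,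
        (h0 (W * A ^ n) 1 : ℤ) - (h0 (W * A ^ n * m⁻¹) 1 : ℤ) = Q (W * A ^ n)) ∧
      (∀ W A B : Cart X, Ample A → Ample B → ∃ n₀ : ℕ, ∀ n ≥ n₀, ∀ j : ℕ,
        (h0 (W * A ^ n * B ^ j) 1 : ℤ) - (h0 (W * A ^ n * B ^ j * m⁻¹) 1 : ℤ) ≤ Q (W * A ^ n * B ^ j)) ∧
      ∀ N A : Cart X, Ample A → (∀ n : ℤ, Ample (A * N ^ n)) → ∀ D E, Q (D * N) - Q D = Q (E * N) - Q E := by
  have triv : (∀ D : Cart X, h0 (D * m⁻¹) 1 = h0 D 1) → ∃ Q : Cart X → ℤ, PolF 2 Q ∧
      (∀ W A : Cart X, Ample A → ∃ n₀ : ℕ, ∀ n ≥ n₀,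
        (h0 (W * A ^ n) 1 : ℤ) - (h0 (W * A ^ n * m⁻¹) 1 : ℤ) = Q (W * A ^ n)) ∧
      (∀ W A B : Cart X, Ample A → Ample B → ∃ n₀ : ℕ, ∀ n ≥ n₀, ∀ j : ℕ,
        (h0 (W * A ^ n * B ^ j) 1 : ℤ) - (h0 (W * A ^ n * B ^ j * m⁻¹) 1 : ℤ) ≤ Q (W * A ^ n * B ^ j)) ∧
      ∀ N A : Cart X, Ample A → (∀ n : ℤ, Ample (A * N ^ n)) → ∀ D E, Q (D * N) - Q D = Q (E * N) - Q E := by
    intro h1
    refine ⟨fun _ => 0, PolF.const 2 0, fun W A _ => ⟨0, fun n _ => ?_⟩, fun W A B _ _ => ⟨0, fun n _ j => ?_⟩,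
      fun _ _ _ _ _ _ => rfl⟩
    · rw [h1, sub_self]
    · rw [h1, sub_self]
  rcases hm with (⟨z, hS⟩ | ⟨h1, h2⟩) | ⟨f, hf, rfl⟩
  · obtain ⟨A₀, hA₀⟩ := h.amp
    have := t0_sub h.var z
    obtain ⟨P, hP, hP1, hP2⟩ := srf (isVar_sub h.var z) ⟨_, gen_sub h.var z⟩ ⟨_, res_ample h.var z A₀ hA₀⟩
      (Pool.Agent.H20.TK.trdeg_spr h hS)
    have hfd := fun D : Cart X => fd h.var h.gen hA₀ D
    have hfz := fun D : Cart (subM h.var z) =>
      fd (isVar_sub h.var z) ⟨_, gen_sub h.var z⟩ (res_ample h.var z A₀ hA₀) D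
    refine ⟨fun D => P (resD h.var z D), PolF.comp _ hP, ?_, ?_, ?_⟩
    · intro W A hA
      obtain ⟨n1, hn1⟩ := ser_ample h.var hA z W
      obtain ⟨n2, hn2⟩ := hP1 (resD h.var z W) _ _ (res_ample h.var z A hA) (res_ample h.var z A hA)
      refine ⟨max n1 n2, fun n hn => ?_⟩
      have a1 := hn1 n (le_trans (le_max_left _ _) hn)
      have a2 := hn2 n (le_trans (le_max_right _ _) hn) 0
      rw [pow_zero, mul_one] at a2
      have := hfd (W * A ^ n)
      have a3 := ex_dim h.var hS (W * A ^ n) 1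
      rw [LinearMap.range_eq_top.2 a1, finrank_top, pow_one] at a3
      rw [← map_pow, ← map_mul] at a2
      have a4 : (h0 (W * A ^ n) 1 : ℤ) = h0 (W * A ^ n * m⁻¹) 1 + h0 (resD h.var z (W * A ^ n)) 1 := by
        exact_mod_cast a3
      show _ = P (resD h.var z (W * A ^ n))
      rw [a4, ← a2]
      ring
    · intro W A B hA hB
      obtain ⟨n2, hn2⟩ := hP1 (resD h.var z W) _ _ (res_ample h.var z A hA) (res_ample h.var z B hB)
      refine ⟨n2, fun n hn j => ?_⟩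
      have a2 := hn2 n hn j
      rw [← map_pow, ← map_mul, ← map_pow, ← map_mul] at a2
      have := hfd (W * A ^ n * B ^ j)
      have := hfz (resD h.var z (W * A ^ n * B ^ j))
      have a3 := ex_le h.var hS (W * A ^ n * B ^ j) 1
      rw [pow_one] at a3
      have a4 : (h0 (W * A ^ n * B ^ j) 1 : ℤ) ≤
          h0 (W * A ^ n * B ^ j * m⁻¹) 1 + h0 (resD h.var z (W * A ^ n * B ^ j)) 1 := by
        exact_mod_cast a3
      show _ ≤ P (resD h.var z (W * A ^ n * B ^ j))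
      rw [← a2]
      linarith
    · intro N A hA hN D E
      have h1 := hP2 (resD h.var z N) (resD h.var z A) (res_ample h.var z A hA) (fun n => by
        rw [← map_zpow, ← map_mul]
        exact res_ample h.var z _ (hN n)) (resD h.var z D) (resD h.var z E)
      show P (resD h.var z (D * N)) - P (resD h.var z D) = P (resD h.var z (E * N)) - P (resD h.var z E)
      rw [map_mul, map_mul]
      exact h1
  · exact triv fun D => h0_triv D h1 h2
  · exact triv fun D => h0_pr D f hf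

theorem thr [CharZero k] [IsAlgClosed k] [T0Space X.P] (h : Hyp X) :
    ∃ P : Cart X → ℤ, PolF 3 P ∧
      (∀ W A : Cart X, Ample A → ∃ n₀ : ℕ, ∀ n ≥ n₀, (h0 (W * A ^ n) 1 : ℤ) = P (W * A ^ n)) ∧
      ∀ N A : Cart X, Ample A → (∀ n : ℤ, Ample (A * N ^ n)) → PolF 1 (fun D => P (D * N) - P D) := by
  have hgd := gen_diff h
  obtain ⟨P, hP, hPe⟩ := glue (d := 2) {A : Cart X | Ample A} h.amp (fun D => (h0 D 1 : ℤ)) (MM X) (clo_top h)
    (fun B hB => amp_mem h hB) (fun m hm => by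
      obtain ⟨Q, h1, h2, h3, -⟩ := hgd m hm
      exact ⟨Q, h1, fun W A hA => h2 W A hA, fun W A hA B hB => h3 W A B hA hB⟩)
  have hev : ∀ W A : Cart X, Ample A → ∃ n₀ : ℕ, ∀ n ≥ n₀, (h0 (W * A ^ n) 1 : ℤ) = P (W * A ^ n) := by
    intro W A hA
    obtain ⟨n₀, hn₀⟩ := hPe W A hA A hA
    refine ⟨n₀, fun n hn => ?_⟩
    have h1 := hn₀ n hn 0
    rw [pow_zero, mul_one] at h1
    exact h1
  refine ⟨P, hP, hev, fun N A hA hN => ?_⟩
  refine PolF.of_gen (d := 0) (MM X) (clo_top h) fun m hm => ?_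
  obtain ⟨Q, h1, h2, -, h4⟩ := hgd m hm
  have h5 : ∀ x, P x - P (x * m⁻¹) = Q x := fun x =>
    diff_eq A m (fun D => (h0 D 1 : ℤ)) P Q hP h1 (fun W => hev W A hA) (fun W => h2 W A hA) x
  intro x y
  have h6 : ∀ x, P (x * N) - P x - (P (x * m⁻¹ * N) - P (x * m⁻¹)) = Q (x * N) - Q x := by
    intro x
    rw [← h5, ← h5, mul_right_comm x m⁻¹ N]
    ring
  show P (x * N) - P x - (P (x * m⁻¹ * N) - P (x * m⁻¹)) = P (y * N) - P y - (P (y * m⁻¹ * N) - P (y * m⁻¹))
  rw [h6, h6]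
  exact h4 N A hA hN x y

end Pool.Agent.H20.TS
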